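import Pool.Agent.X161.CE.Mask

/-!
# From Boolean checks to the structures
-/

set_option autoImplicit false

namespace Pool.Agent.X161.CE

open Finset Pool.Agent.Helper175.NS

/-- integer vectors -/
abbrev Z4 := ℤ × ℤ × ℤ × ℤ

/-- the dot product -/
def dt (a x : Z4) : ℤ := a.1 * x.1 + a.2.1 * x.2.1 + a.2.2.1 * x.2.2.1 + a.2.2.2 * x.2.2.2

/-- a facet: mask, functional, value -/
abbrev Rec := ℕ × Z4 × ℤ

noncomputable def rl (t : Z4) : Fin 4 → ℝ := ![t.1, t.2.1, t.2.2.1, t.2.2.2]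

lemma rl_dot (a x : Z4) : ∑ i, rl a i * rl x i = (dt a x : ℝ) := by
  rw [Fin.sum_univ_four]
  simp only [rl, dt]
  push_cast
  simp

def okR1 (Rs : List Rec) (Xs : List Z4) : Bool :=
  Rs.all (fun r => (List.range Xs.length).all (fun v =>
    if r.1.testBit v then dt r.2.1 (Xs.getD v (0, 0, 0, 0)) == r.2.2
    else decide (dt r.2.1 (Xs.getD v (0, 0, 0, 0)) < r.2.2)))

def okR2 (Rs : List Rec) (n : ℕ) : Bool :=
  Rs.all (fun r => decide (r.1 < 2 ^ n) && ((bt r.1).length == 4))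

def okR3 (Rs : List Rec) : Bool :=
  Rs.all (fun r => (bt r.1).all (fun j =>
    Rs.any (fun r' => le (r.1 ^^^ 2 ^ j) r'.1 && !(r'.1.testBit j))))

def okR4 (Rs : List Rec) (n : ℕ) : Bool :=
  (List.range n).all (fun v => Rs.any (fun r => r.1.testBit v))

/-- the masks of the facets -/
def mk (Rs : List Rec) : List ℕ := Rs.map (fun r => r.1)

def pick (Rs : List Rec) (A : Finset ℕ) : Rec :=
  (Rs.find? (fun r => decide (de r.1 = A))).getD (0, (0, 0, 0, 0), 0)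

lemma pick_spec {Rs : List Rec} {A : Finset ℕ} (hA : A ∈ deL (mk Rs)) :
    pick Rs A ∈ Rs ∧ de (pick Rs A).1 = A := by
  obtain ⟨m, hm, rfl⟩ := mem_deL.1 hA
  obtain ⟨r, hr, rfl⟩ := List.mem_map.1 hm
  have h : (Rs.find? (fun r' => decide (de r'.1 = de r.1))).isSome := by
    rw [List.find?_isSome]
    exact ⟨r, hr, by simp⟩
  obtain ⟨r', hr'⟩ := Option.isSome_iff_exists.1 h
  have h1 := List.mem_of_find?_eq_some hr'
  have h2 := List.find?_some hr'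
  unfold pick
  rw [hr']
  exact ⟨h1, by simpa using h2⟩

lemma de_card (m : ℕ) : (de m).card = (bt m).length := by
  have e : de m = (bt m).toFinset := by
    ext n
    rw [List.mem_toFinset, mem_bt]
  rw [e, List.toFinset_card_of_nodup]
  exact (List.nodup_range).filter _

lemma de_lt_of {m n : ℕ} (hm : m < 2 ^ n) {v : ℕ} (hv : v ∈ de m) : v < n := by
  rw [mem_de] at hv
  by_contra hcon
  rw [Nat.testBit_eq_false_of_lt (hm.trans_le (Nat.pow_le_pow_right (by norm_num) (by omega)))] at hv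
  exact absurd hv.2 (by decide)

theorem cert_of {Rs : List Rec} {Xs : List Z4} (hn : Xs.length ≤ 64) (h4 : 4 < Xs.length)
    (hne : Rs ≠ []) (h1 : okR1 Rs Xs = true) (h2 : okR2 Rs Xs.length = true)
    (h3 : okR3 Rs = true) (h5 : okR4 Rs Xs.length = true) :
    Cert 4 (range Xs.length) (deL (mk Rs)) (fun v => rl (Xs.getD v (0, 0, 0, 0)))
      (fun A => rl (pick Rs A).2.1) (fun A => ((pick Rs A).2.2 : ℝ)) := by
  rw [okR1, List.all_eq_true] at h1
  rw [okR2, List.all_eq_true] at h2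
  rw [okR3, List.all_eq_true] at h3
  rw [okR4, List.all_eq_true] at h5
  have hlt : ∀ r ∈ Rs, r.1 < 2 ^ Xs.length := by
    intro r hr
    have := h2 r hr
    rw [Bool.and_eq_true, decide_eq_true_eq] at this
    exact this.1
  have hlt' : ∀ r ∈ Rs, r.1 < 2 ^ 64 := fun r hr =>
    (hlt r hr).trans_le (Nat.pow_le_pow_right (by norm_num) hn)
  have hrow : ∀ r ∈ Rs, ∀ v, v < Xs.length → (if r.1.testBit v then
      dt r.2.1 (Xs.getD v (0, 0, 0, 0)) == r.2.2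
      else decide (dt r.2.1 (Xs.getD v (0, 0, 0, 0)) < r.2.2)) = true := by
    intro r hr v hv
    have := h1 r hr
    rw [List.all_eq_true] at this
    exact this v (List.mem_range.2 hv)
  have hridge : ∀ A ∈ deL (mk Rs), ∀ j ∈ A, ∃ G ∈ deL (mk Rs), A.erase j ⊆ G ∧ j ∉ G := by
    intro A hA j hj
    obtain ⟨hr, he⟩ := pick_spec hA
    have h := h3 _ hr
    rw [List.all_eq_true] at h
    have hj' : j ∈ de (pick Rs A).1 := by rw [he]; exact hj
    have h' := h j (mem_bt.2 hj')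
    rw [List.any_eq_true] at h'
    obtain ⟨r', hr', h''⟩ := h'
    rw [Bool.and_eq_true, Bool.not_eq_true'] at h''
    refine ⟨de r'.1, mem_deL.2 ⟨r'.1, List.mem_map.2 ⟨r', hr', rfl⟩, rfl⟩, ?_, ?_⟩
    · have := (le_iff (xor_lt (hlt' _ hr) hj')).1 h''.1
      rw [de_xor hj', he] at this
      exact this
    · rw [mem_de]
      rintro ⟨_, hb⟩
      rw [h''.2] at hb
      exact absurd hb (by simp)
  refine ⟨?_, ?_, ?_, ?_, hridge, ?_, ?_, ?_, ?_⟩
  · intro A hA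
    obtain ⟨hr, he⟩ := pick_spec hA
    have := h2 _ hr
    rw [Bool.and_eq_true, beq_iff_eq] at this
    rw [← he, de_card, this.2]
  · intro A hA v hv
    obtain ⟨hr, he⟩ := pick_spec hA
    rw [← he] at hv
    exact mem_range.2 (de_lt_of (hlt _ hr) hv)
  · intro A hA v hv
    obtain ⟨hr, he⟩ := pick_spec hA
    rw [← he] at hv
    have h := hrow _ hr v (de_lt_of (hlt _ hr) hv)
    rw [if_pos (mem_de.1 hv).2, beq_iff_eq] at h
    rw [rl_dot, h]
  · intro A hA v hv hvA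
    obtain ⟨hr, he⟩ := pick_spec hA
    rw [mem_range] at hv
    have h := hrow _ hr v hv
    rw [← he, mem_de, not_and] at hvA
    rw [if_neg (hvA (by omega)), decide_eq_true_eq] at h
    rw [rl_dot]
    exact_mod_cast h
  · intro A hA F hFA v hv hvF
    by_cases hvA : v ∈ A
    · obtain ⟨G, hG, h6, h7⟩ := hridge A hA v hvA
      refine ⟨G, hG, ?_, h7⟩
      intro w hw
      exact h6 (mem_erase.2 ⟨fun h => hvF (h ▸ hw), hFA hw⟩)
    · exact ⟨A, hA, hFA, hvA⟩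
  · intro v hv
    rw [mem_range] at hv
    have h := h5 v (List.mem_range.2 hv)
    rw [List.any_eq_true] at h
    obtain ⟨r, hr, hb⟩ := h
    exact ⟨de r.1, mem_deL.2 ⟨r.1, List.mem_map.2 ⟨r, hr, rfl⟩, rfl⟩,
      mem_de.2 ⟨by omega, hb⟩⟩
  · obtain ⟨r, hr⟩ := List.exists_mem_of_ne_nil _ hne
    exact ⟨de r.1, mem_deL.2 ⟨r.1, List.mem_map.2 ⟨r, hr, rfl⟩, rfl⟩⟩
  · rw [card_range]
    exact h4

/-! ### The ball -/

/-- facets of the ball: those avoiding the mask `Am` -/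
def bl (pm : List ℕ) (Am : ℕ) : List ℕ := pm.filter (fun m => (m &&& Am) == 0)

def okB (pm tm : List ℕ) (Am Im : ℕ) : Bool :=
  pm.all (fun m => decide (m < 2 ^ 63) && ((bt m).length == 4)) &&
  (bl pm Am).all (fun m => (m &&& Im) != 0) &&
  pm.all (fun m => ((m &&& Am) == 0) || ((m &&& Im) == 0)) &&
  (bl pm Am).all (fun m => tm.any (fun t => le (m ^^^ (m &&& Im)) t)) &&
  tm.all (fun t => decide (t < 2 ^ 63) && ((bt t).length == 3) && ((t &&& Im) == 0) &&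
    (((bl pm Am).filter (fun m => le t m)).length == 1)) &&
  (bl pm Am).all (fun m => (bt m).all (fun y => tm.contains (m ^^^ 2 ^ y) ||
    (bl pm Am).any (fun m' => le (m ^^^ 2 ^ y) m' && (m' != m)))) &&
  (bl pm Am != []) && pm.any (fun m => (m &&& Am) != 0)

lemma mem_land {a b v : ℕ} : v ∈ de (a &&& b) ↔ v ∈ de a ∧ v ∈ de b := by
  rw [mem_de, mem_de, mem_de, Nat.testBit_land, Bool.and_eq_true]
  tauto

lemma de_zero : de 0 = ∅ := by
  ext n; rw [mem_de]; simp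

lemma de_diff {m Im : ℕ} : de (m ^^^ (m &&& Im)) = de m \ de Im := by
  ext n
  rw [mem_sdiff, mem_de, mem_de, mem_de, Nat.testBit_xor, Nat.testBit_land]
  cases m.testBit n <;> cases Im.testBit n <;> simp <;> tauto

theorem setup_of {pm tm : List ℕ} {Am Im : ℕ} (h : okB pm tm Am Im = true) :
    Setup (deL pm) (deL (bl pm Am)) (de Im) (deL tm) := by
  simp only [okB, Bool.and_eq_true, List.all_eq_true, decide_eq_true_eq, beq_iff_eq,
    bne_iff_ne, Bool.or_eq_true, List.any_eq_true] at h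
  obtain ⟨⟨⟨⟨⟨⟨⟨h1, h2⟩, h3⟩, h4⟩, h5⟩, h6⟩, h7⟩, h8⟩ := h
  have lt63 : ∀ m : ℕ, m < 2 ^ 63 → m < 2 ^ 64 := fun m hm => hm.trans (by norm_num)
  have hbl : ∀ m, m ∈ bl pm Am ↔ m ∈ pm ∧ m &&& Am = 0 := by
    intro m
    rw [bl, List.mem_filter, beq_iff_eq]
  have hsub : ∀ F ∈ deL (bl pm Am), F ∈ deL pm := by
    intro F hF
    obtain ⟨m, hm, rfl⟩ := mem_deL.1 hF
    exact mem_deL.2 ⟨m, ((hbl m).1 hm).1, rfl⟩
  refine ⟨hsub, ?_, ?_, ?_, ?_, ?_, ?_, ?_, ?_, ?_⟩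
  · intro F hF
    obtain ⟨m, hm, rfl⟩ := mem_deL.1 hF
    rw [de_card]
    exact (h1 m hm).2
  · intro F hF v hv
    obtain ⟨m, hm, rfl⟩ := mem_deL.1 hF
    exact (mem_de.1 hv).1
  · intro F hF
    obtain ⟨m, hm, rfl⟩ := mem_deL.1 hF
    have h := h2 m hm
    have hm' := ((hbl m).1 hm).1
    have hlt : m &&& Im < 2 ^ 64 := lt_of_le_of_lt Nat.and_le_left (lt63 m (h1 m hm').1)
    obtain ⟨v, hv⟩ := de_ne (Nat.pos_of_ne_zero h) hlt
    exact ⟨v, (mem_land.1 hv).1, (mem_land.1 hv).2⟩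
  · intro F hF hFB v hv hvI
    obtain ⟨m, hm, rfl⟩ := mem_deL.1 hF
    rcases h3 m hm with h | h
    · exact hFB (mem_deL.2 ⟨m, (hbl m).2 ⟨hm, h⟩, rfl⟩)
    · have : v ∈ de (m &&& Im) := mem_land.2 ⟨hv, hvI⟩
      rw [h, de_zero] at this
      simp at this
  · intro F hF
    obtain ⟨m, hm, rfl⟩ := mem_deL.1 hF
    obtain ⟨t, ht, hle⟩ := h4 m hm
    have hm' := ((hbl m).1 hm).1
    have hlt : m ^^^ (m &&& Im) < 2 ^ 64 := Nat.xor_lt_two_pow (lt63 m (h1 m hm').1)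
      (lt_of_le_of_lt Nat.and_le_left (lt63 m (h1 m hm').1))
    refine ⟨de t, mem_deL.2 ⟨t, ht, rfl⟩, ?_⟩
    rw [← de_diff]
    exact (le_iff hlt).1 hle
  · intro T hT
    obtain ⟨t, ht, rfl⟩ := mem_deL.1 hT
    obtain ⟨⟨⟨ht1, ht2⟩, ht3⟩, ht4⟩ := h5 t ht
    refine ⟨by rw [de_card]; exact ht2, ?_, ?_⟩
    · intro v hv hvI
      have : v ∈ de (t &&& Im) := mem_land.2 ⟨hv, hvI⟩
      rw [ht3, de_zero] at this
      simp at this
    · obtain ⟨m, hm⟩ := List.length_eq_one_iff.1 ht4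
      have hmem : m ∈ (bl pm Am).filter (fun m => le t m) := by rw [hm]; simp
      rw [List.mem_filter] at hmem
      refine ⟨de m, mem_deL.2 ⟨m, hmem.1, rfl⟩, (le_iff (lt63 t ht1)).1 hmem.2, ?_⟩
      intro F' hF' hTF'
      obtain ⟨m', hm', rfl⟩ := mem_deL.1 hF'
      have : m' ∈ (bl pm Am).filter (fun m => le t m) :=
        List.mem_filter.2 ⟨hm', (le_iff (lt63 t ht1)).2 hTF'⟩
      rw [hm, List.mem_singleton] at this
      rw [this]
  · intro F hF y hy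
    obtain ⟨m, hm, rfl⟩ := mem_deL.1 hF
    have hm1 := lt63 m (h1 m ((hbl m).1 hm).1).1
    rcases h6 m hm y (mem_bt.2 hy) with h | ⟨m', hm', hle, hne⟩
    · left
      rw [← de_xor hy]
      exact mem_deL.2 ⟨_, by simpa using h, rfl⟩
    · right
      refine ⟨de m', mem_deL.2 ⟨m', hm', rfl⟩, ?_, ?_⟩
      · intro he
        exact hne (de_inj (lt63 m' (h1 m' ((hbl m').1 hm').1).1) hm1 he)
      · rw [← de_xor hy]
        exact (le_iff (xor_lt hm1 hy)).1 hle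
  · obtain ⟨m, hm⟩ := List.exists_mem_of_ne_nil _ h7
    exact ⟨de m, mem_deL.2 ⟨m, hm, rfl⟩⟩
  · obtain ⟨m, hm, hne⟩ := h8
    refine ⟨de m, mem_deL.2 ⟨m, hm, rfl⟩, ?_⟩
    intro hB
    obtain ⟨m', hm', he⟩ := mem_deL.1 hB
    have := de_inj (lt63 m' (h1 m' ((hbl m').1 hm').1).1) (lt63 m (h1 m hm).1) he
    subst this
    exact hne ((hbl m').1 hm').2

/-! ### The connection -/

/-- the transition functions, coded in one number -/
def psi (N : ℕ) (u v : ℕ) (c : Fin 3) : Fin 3 :=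
  Fin.ofNat 3 ((N >>> (2 * (3 * (64 * u + v) + c.val))) % 4)

/-- the colours around the singular vertices -/
def cl (M : ℕ) (a u : ℕ) : Fin 3 := Fin.ofNat 3 ((M >>> (2 * (64 * a + u))) % 4)

def KK (km : ℕ) (a : ℕ) : Prop := km.testBit a = true

instance (km : ℕ) : DecidablePred (KK km) := fun a => by unfold KK; infer_instance

/-- the decidable form of the local conditions, on lists -/
def GoodB (N M km : ℕ) (s : List ℕ) : Prop :=
  s.length = 4 ∧ (∀ u ∈ s, ¬ KK km u → ∀ c, psi N u u c = c) ∧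
  (∀ u ∈ s, ¬ KK km u → ∀ v ∈ s, ¬ KK km v → ∀ w ∈ s, ¬ KK km w → ∀ c,
    psi N v w (psi N u v c) = psi N u w c) ∧
  (∀ a ∈ s, KK km a → ∀ u ∈ s, ¬ KK km u → ∀ v ∈ s, ¬ KK km v →
    psi N u v (cl M a u) = cl M a v) ∧
  (∀ a ∈ s, KK km a → ∀ b ∈ s, KK km b → ∀ u ∈ s, ¬ KK km u → cl M a u = cl M b u) ∧
  (∀ a ∈ s, KK km a → ∀ b ∈ s, KK km b → ∀ c ∈ s, KK km c → a = b ∨ a = c ∨ b = c)

instance (N M km : ℕ) (s : List ℕ) : Decidable (GoodB N M km s) := by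
  unfold GoodB; infer_instance

theorem good_of {N M km m : ℕ} (h : GoodB N M km (bt m)) : Good (KK km) (psi N) (cl M) (de m) := by
  obtain ⟨h1, h2, h3, h4, h5, h6⟩ := h
  have hb : ∀ n, n ∈ de m → n ∈ bt m := fun n hn => mem_bt.2 hn
  exact ⟨by rw [de_card, h1], fun u hu hKu => h2 u (hb u hu) hKu,
    fun u hu v hv w hw ku kv kw => h3 u (hb u hu) ku v (hb v hv) kv w (hb w hw) kw,
    fun a ha ka u hu v hv ku kv => h4 a (hb a ha) ka u (hb u hu) ku v (hb v hv) kv,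
    fun a ha b hb' ka kb u hu ku => h5 a (hb a ha) ka b (hb b hb') kb u (hb u hu) ku,
    fun a ha b hb' c hc ka kb kc => h6 a (hb a ha) ka b (hb b hb') kb c (hb c hc) kc⟩

/-- the conditions on a boundary triangle: the constant function `0` is flat -/
def Good0 (N M km em : ℕ) (s : List ℕ) : Prop :=
  (∀ u ∈ s, ∀ v ∈ s, ¬ KK km u → ¬ KK km v → (0 : Fin 3) = psi N u v 0) ∧
  (∀ a ∈ s, KK km a → KK em a → ∀ w ∈ s, ¬ KK km w → (0 : Fin 3) = cl M a w)

instance (N M km em : ℕ) (s : List ℕ) : Decidable (Good0 N M km em s) := by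
  unfold Good0; infer_instance

def Good2 (km em : ℕ) (s : List ℕ) : Prop :=
  ∀ a ∈ s, ∀ b ∈ s, KK km a → KK km b → a ≠ b → KK em a ∨ KK em b

instance (km em : ℕ) (s : List ℕ) : Decidable (Good2 km em s) := by
  unfold Good2; infer_instance

def GoodE (km em : ℕ) (tm : List ℕ) : Prop :=
  em < 2 ^ 64 ∧ ∀ a ∈ bt em, KK km a ∧ ∃ t ∈ tm, t.testBit a = true

instance (km em : ℕ) (tm : List ℕ) : Decidable (GoodE km em tm) := by
  unfold GoodE; infer_instance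

theorem conn_of {N M km em : ℕ} {bm tm : List ℕ} (h1 : ∀ m ∈ bm, GoodB N M km (bt m))
    (h2 : ∀ t ∈ tm, Good0 N M km em (bt t)) (h3 : GoodE km em tm)
    (h4 : ∀ m ∈ bm, Good2 km em (bt m))
    (h5 : ¬ ∃ g : ℕ → Fin 3, ∀ m ∈ bm, ∀ u ∈ bt m, ∀ v ∈ bt m, ¬ KK km u → ¬ KK km v →
      g v = psi N u v (g u)) :
    Conn (deL bm) (deL tm) (KK km) (KK em) (psi N) (cl M) (fun _ => 0) := by
  refine ⟨?_, ?_, ?_, ?_, ?_, ?_⟩
  · intro F hF
    obtain ⟨m, hm, rfl⟩ := mem_deL.1 hF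
    exact good_of (h1 m hm)
  · intro T hT u hu v hv
    obtain ⟨t, ht, rfl⟩ := mem_deL.1 hT
    exact (h2 t ht).1 u (mem_bt.2 hu) v (mem_bt.2 hv)
  · intro T hT a ha hKa hEa w hw
    obtain ⟨t, ht, rfl⟩ := mem_deL.1 hT
    exact (h2 t ht).2 a (mem_bt.2 ha) hKa hEa w (mem_bt.2 hw)
  · intro a ha
    have ha' : a < 64 := bit_lt h3.1 ha
    have hab : a ∈ bt em := mem_bt.2 (mem_de.2 ⟨ha', ha⟩)
    obtain ⟨hk, t, ht, hta⟩ := h3.2 a hab
    exact ⟨hk, de t, mem_deL.2 ⟨t, ht, rfl⟩, mem_de.2 ⟨ha', hta⟩⟩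
  · intro F hF a ha b hb
    obtain ⟨m, hm, rfl⟩ := mem_deL.1 hF
    exact h4 m hm a (mem_bt.2 ha) b (mem_bt.2 hb)
  · rintro ⟨g, hg⟩
    apply h5
    refine ⟨g, ?_⟩
    intro m hm u hu v hv
    exact hg (de m) (mem_deL.2 ⟨m, hm, rfl⟩) u (mem_bt.1 hu) v (mem_bt.1 hv)

end Pool.Agent.X161.CE
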