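import Pool.Agent.X161.CE.Data

/-!
# Kernel checks, second part
-/

set_option autoImplicit false

namespace Pool.Agent.X161.CE.Data

open Pool.Agent.X161.CE

theorem c5 : okB (mk Rs) tm Am Im = true := by decide +kernel
theorem c7 : ∀ t ∈ tm, Good0 NN MM km em (bt t) := by decide +kernel
theorem c8 : GoodE km em tm := by decide +kernel
theorem c9 : ∀ m ∈ bl (mk Rs) Am, Good2 km em (bt m) := by decide +kernel
theorem p1 : okPath (bl (mk Rs) Am) km rr l1 = true := by decide +kernel
theorem p2 : okPath (bl (mk Rs) Am) km rr l2 = true := by decide +kernel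
theorem p3 : endp rr l1 = rr := by decide +kernel
theorem p4 : endp rr l2 = rr := by decide +kernel
theorem p5 : ∀ c, ¬ (walk NN rr l1 c = c ∧ walk NN rr l2 c = c) := by decide +kernel
theorem q2 : (bt tt).length = 4 := by decide +kernel
theorem q3 : ∀ m ∈ bl (mk Rs) Am, m < 2 ^ 63 := by decide +kernel

end Pool.Agent.X161.CE.Data
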