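import Pool.Agent.X161.CE.Data

/-!
# Kernel checks, fourth part
-/

set_option autoImplicit false

namespace Pool.Agent.X161.CE.Data

open Pool.Agent.X161.CE

theorem q1 : chB (bl (mk Rs) Am) ms tt = true := by decide +kernel

end Pool.Agent.X161.CE.Data
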