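import Pool.Agent.Helper175.NS.Main

/-!
# Relative shellings: pigeonhole and flat sections
-/

set_option autoImplicit false

namespace Pool.Agent.X161.CE

open Finset Pool.Agent.Helper175.NS

/-- `l`, read from its end, is a shelling order relative to the complex generated by `bd`. -/
def RShell {V : Type} [DecidableEq V] (bd : Finset (Finset V)) : List (Finset V) → Prop
  | [] => True
  | F :: l => RShell bd l ∧ ∀ G, (G ∈ l ∨ G ∈ bd) → ∃ H, (H ∈ l ∨ H ∈ bd) ∧
      ∃ y ∈ F, F ∩ G ⊆ F.erase y ∧ F.erase y ⊆ H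

/-- One step of the extension of a flat function: `pr` is the set of the earlier faces. -/
theorem extend {V : Type} [DecidableEq V] {K : V → Prop} {psi : V → V → Fin 3 → Fin 3}
    {col : V → V → Fin 3} {F : Finset V} {pr : Set (Finset V)} (hne : ∃ G, G ∈ pr)
    (hl : ∀ G ∈ pr, ∃ H ∈ pr, ∃ y ∈ F, F ∩ G ⊆ F.erase y ∧ F.erase y ⊆ H)
    (hg : Good K psi col F) {g : V → Fin 3}
    (hfl : ∀ G ∈ pr, ∀ u ∈ G, ∀ v ∈ G, ¬ K u → ¬ K v → g v = psi u v (g u))
    (hCl : ∀ x ∈ F, ∀ y ∈ F, x ≠ y → ¬ K x → ¬ K y → (∀ z ∈ F, z ≠ x → z ≠ y → K z) →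
      ∀ H1 ∈ pr, ∀ H2 ∈ pr, F.erase x ⊆ H1 → F.erase y ⊆ H2 → g x = psi y x (g y)) :
    ∃ g2 : V → Fin 3, (∀ G, (G = F ∨ G ∈ pr) → ∀ u ∈ G, ∀ v ∈ G, ¬ K u → ¬ K v →
      g2 v = psi u v (g2 u)) ∧ ∀ G ∈ pr, ∀ w ∈ G, g2 w = g w := by
  classical
  obtain ⟨G0, hG0⟩ := hne
  obtain ⟨H, hH, x, hxF, -, hxH⟩ := hl G0 hG0
  obtain ⟨u0, hu0, hu0K⟩ := hg.exists_nonK x
  have hu0F : u0 ∈ F := Finset.mem_of_mem_erase hu0
  have hu0x : u0 ≠ x := Finset.ne_of_mem_erase hu0
  have hu0H : u0 ∈ H := hxH hu0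
  let g2 : V → Fin 3 := fun w => if ∃ G ∈ pr, w ∈ G then g w else psi u0 w (g u0)
  have hg2l : ∀ G ∈ pr, ∀ w ∈ G, g2 w = g w := fun G hG w hw => by
    have : ∃ G ∈ pr, w ∈ G := ⟨G, hG, hw⟩
    simp only [g2, if_pos this]
  have claim : ∀ w ∈ F, ¬ K w → g2 w = psi u0 w (g u0) := by
    intro w hw hwK
    by_cases hex : ∃ G ∈ pr, w ∈ G
    · obtain ⟨G, hG, hwG⟩ := hex
      rw [hg2l G hG w hwG]
      obtain ⟨H2, hH2, y, hyF, hy1, hy2⟩ := hl G hG
      have hwy : w ∈ F.erase y := hy1 (Finset.mem_inter.2 ⟨hw, hwG⟩)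
      have hwH2 : w ∈ H2 := hy2 hwy
      have hwny : w ≠ y := Finset.ne_of_mem_erase hwy
      by_cases hyx : y = x
      · subst hyx
        exact hfl H hH u0 hu0H w (hxH hwy) hu0K hwK
      · by_cases hz : ∃ z ∈ F, z ≠ x ∧ z ≠ y ∧ ¬ K z
        · obtain ⟨z, hzF, hzx, hzy, hzK⟩ := hz
          have h1 := hfl H hH u0 hu0H z (hxH (Finset.mem_erase.2 ⟨hzx, hzF⟩)) hu0K hzK
          have h2 := hfl H2 hH2 z (hy2 (Finset.mem_erase.2 ⟨hzy, hzF⟩)) w hwH2 hzK hwK
          rw [h2, h1, hg.coc u0 hu0F z hzF w hw hu0K hzK hwK]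
        · push Not at hz
          have hu0y : u0 = y := by
            by_contra hne
            exact hu0K (hz u0 hu0F hu0x hne)
          have hwx : w = x := by
            by_contra hne
            exact hwK (hz w hw hne hwny)
          subst hu0y
          subst hwx
          exact hCl w hw u0 hu0F (Ne.symm hyx) hwK hu0K hz H hH H2 hH2 hxH hy2
    · simp only [g2, if_neg hex]
  refine ⟨g2, ?_, hg2l⟩
  intro G hG u hu v hv huK hvK
  rcases hG with rfl | hG
  · rw [claim v hv hvK, claim u hu huK, hg.coc u0 hu0F u hu v hv hu0K huK hvK]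
  · rw [hg2l G hG u hu, hg2l G hG v hv]
    exact hfl G hG u hu v hv huK hvK

/-- A flat function on the boundary which takes the prescribed values around the ends of the
singular arcs extends along a relative shelling. -/
theorem rel_flat {V : Type} [DecidableEq V] (K E : V → Prop) (psi : V → V → Fin 3 → Fin 3)
    (col : V → V → Fin 3) (bd : Finset (Finset V)) (hbd : bd.Nonempty)
    (g0 : V → Fin 3)
    (h0 : ∀ T ∈ bd, ∀ u ∈ T, ∀ v ∈ T, ¬ K u → ¬ K v → g0 v = psi u v (g0 u))
    (h1 : ∀ T ∈ bd, ∀ a ∈ T, K a → E a → ∀ w ∈ T, ¬ K w → g0 w = col a w)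
    (hE : ∀ a, E a → K a ∧ ∃ T ∈ bd, a ∈ T) (l : List (Finset V)) (hl : RShell bd l)
    (hg : ∀ F ∈ l, Good K psi col F)
    (h2 : ∀ F ∈ l, ∀ a ∈ F, ∀ b ∈ F, K a → K b → a ≠ b → E a ∨ E b) :
    ∃ g : V → Fin 3, (∀ G, (G ∈ l ∨ G ∈ bd) → ∀ u ∈ G, ∀ v ∈ G, ¬ K u → ¬ K v →
        g v = psi u v (g u)) ∧
      ∀ G, (G ∈ l ∨ G ∈ bd) → ∀ a ∈ G, E a → ∀ w ∈ G, ¬ K w → g w = col a w := by
  induction l with
  | nil =>
    refine ⟨g0, ?_, ?_⟩
    · rintro G (hG | hG)
      · simp at hG
      · exact h0 G hG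
    · rintro G (hG | hG) a ha hEa w hw hwK
      · simp at hG
      · exact h1 G hG a ha (hE a hEa).1 hEa w hw hwK
  | cons F l ih =>
    obtain ⟨g, hfl, hen⟩ := ih hl.1 (fun G hG => hg G (List.mem_cons_of_mem _ hG))
      (fun G hG => h2 G (List.mem_cons_of_mem _ hG))
    have hgF := hg F (by simp)
    obtain ⟨T0, hT0⟩ := hbd
    obtain ⟨g2, hg2, hg3⟩ := extend (F := F) (col := col) (pr := {G | G ∈ l ∨ G ∈ bd})
      ⟨T0, Or.inr hT0⟩ (fun G hG => hl.2 G hG) hgF hfl (by
      intro x hx y hy hxy hxK hyK hz H1 hH1 H2 hH2 hh1 hh2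
      obtain ⟨z1, hz1, z2, hz2, h12, h1x, h1y, h2x, h2y⟩ := hgF.exists_two x y
      have k1 := hz z1 hz1 h1x h1y
      have k2 := hz z2 hz2 h2x h2y
      have main : ∀ e ∈ F, E e → e ≠ x → e ≠ y → g x = psi y x (g y) := by
        intro e he hEe hex hey
        have e1 := hen H1 hH1 e (hh1 (Finset.mem_erase.2 ⟨hex, he⟩)) hEe y
          (hh1 (Finset.mem_erase.2 ⟨hxy.symm, hy⟩)) hyK
        have e2 := hen H2 hH2 e (hh2 (Finset.mem_erase.2 ⟨hey, he⟩)) hEe x
          (hh2 (Finset.mem_erase.2 ⟨hxy, hx⟩)) hxK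
        rw [e1, e2, hgF.colf e he (hE e hEe).1 y hy x hx hyK hxK]
      rcases h2 F (by simp) z1 hz1 z2 hz2 k1 k2 h12 with h | h
      · exact main z1 hz1 h h1x h1y
      · exact main z2 hz2 h h2x h2y)
    refine ⟨g2, ?_, ?_⟩
    · rintro G hG
      apply hg2
      rcases hG with hG | hG
      · rcases List.mem_cons.1 hG with rfl | hG
        · exact Or.inl rfl
        · exact Or.inr (Or.inl hG)
      · exact Or.inr (Or.inr hG)
    · intro G hG a ha hEa w hw hwK
      have hold : (G ∈ l ∨ G ∈ bd) → g2 w = col a w := by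
        intro hG'
        rw [hg3 G hG' w hw]
        exact hen G hG' a ha hEa w hw hwK
      rcases hG with hG | hG
      · rcases List.mem_cons.1 hG with rfl | hG
        · obtain ⟨hKa, T, hT, haT⟩ := hE a hEa
          obtain ⟨H, hH, y, hy, hy1, hy2⟩ := hl.2 T (Or.inr hT)
          have hay : a ∈ G.erase y := hy1 (Finset.mem_inter.2 ⟨ha, haT⟩)
          obtain ⟨u, hu, huK⟩ := hgF.exists_nonK y
          have huF := Finset.mem_of_mem_erase hu
          have e1 := hen H hH a (hy2 hay) hEa u (hy2 hu) huK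
          have e2 := hg3 H hH u (hy2 hu)
          rw [hg2 G (Or.inl rfl) u huF w hw huK hwK, e2, e1,
            hgF.colf a ha hKa u huF w hw huK hwK]
        · exact hold (Or.inl hG)
      · exact hold (Or.inr hG)

/-- Pigeonhole: if there are many pairwise disjoint families of facets which meet the rest only
in faces of the complex generated by `bd`, then one of them is shelled relative to `bd`. -/
theorem pigeon {V : Type} [DecidableEq V] (bd : Finset (Finset V)) (l : List (Finset V))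
    (hnd : l.Nodup) (hl : Shell l) (k : ℕ) (Bc : Fin k → Finset (Finset V))
    (hdis : ∀ i j, i ≠ j → Disjoint (Bc i) (Bc j))
    (hmeet : ∀ i, ∀ F ∈ Bc i, ∀ G ∈ l, G ∉ Bc i → ∃ T ∈ bd, F ∩ G ⊆ T)
    (hcov : ∀ T ∈ bd, ∃ G ∈ l, T ⊆ G) (hk : (bd.biUnion Finset.powerset).card < k) :
    ∃ i, RShell bd (l.filter (fun F => F ∈ Bc i)) := by
  classical
  -- the first facet which contains a given set
  let fst : Finset V → Finset V := fun c => (l.reverse.find? (fun G => c ⊆ G)).getD ∅
  have hfst : ∀ (l1 l2 : List (Finset V)) (F c : Finset V), l = l1 ++ F :: l2 → c ⊆ F →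
      (∀ G ∈ l2, ¬ c ⊆ G) → fst c = F := by
    intro l1 l2 F c h hc hn
    have e : l.reverse = l2.reverse ++ F :: l1.reverse := by
      rw [h]; simp
    have e2 : l2.reverse.find? (fun G => decide (c ⊆ G)) = none := by
      rw [List.find?_eq_none]
      intro G hG
      rw [List.mem_reverse] at hG
      simpa using hn G hG
    show (l.reverse.find? (fun G => decide (c ⊆ G))).getD ∅ = F
    rw [e, List.find?_append, e2]
    simp [hc]
  -- some family contains none of these facets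
  have hex : ∃ i : Fin k, ∀ c ∈ bd.biUnion Finset.powerset, fst c ∉ Bc i := by
    by_contra hcon
    push Not at hcon
    choose c hc1 hc2 using hcon
    have hinj : Function.Injective c := by
      intro i j hij
      by_contra hne
      have h1 := hc2 i
      rw [hij] at h1
      exact (Finset.disjoint_left.1 (hdis i j hne)) h1 (hc2 j)
    have h1 : (Finset.univ : Finset (Fin k)).card ≤ (bd.biUnion Finset.powerset).card :=
      Finset.card_le_card_of_injOn c (fun i _ => hc1 i) (fun i _ j _ h => hinj h)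
    rw [Finset.card_univ, Fintype.card_fin] at h1
    omega
  obtain ⟨i, hi⟩ := hex
  refine ⟨i, ?_⟩
  have key : ∀ (l2 l1 : List (Finset V)), l = l1 ++ l2 → Shell l2 →
      RShell bd (l2.filter (fun F => F ∈ Bc i)) := by
    intro l2
    induction l2 with
    | nil => intro l1 _ _; simp [RShell]
    | cons F l2 ih =>
      intro l1 h hs
      have h' : l = (l1 ++ [F]) ++ l2 := by rw [h]; simp
      have ih' := ih (l1 ++ [F]) h' hs.1
      by_cases hF : F ∈ Bc i
      · rw [List.filter_cons_of_pos (by simpa using hF)]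
        refine ⟨ih', ?_⟩
        -- from an earlier facet in the whole order to an admissible one
        have step : ∀ G ∈ l2, ∃ H, (H ∈ l2.filter (fun F => F ∈ Bc i) ∨ H ∈ bd) ∧
            ∃ y ∈ F, F ∩ G ⊆ F.erase y ∧ F.erase y ⊆ H := by
          intro G hG
          obtain ⟨H, hH, y, hy, hy1, hy2⟩ := hs.2 G hG
          by_cases hHB : H ∈ Bc i
          · exact ⟨H, Or.inl (List.mem_filter.2 ⟨hH, by simpa using hHB⟩), y, hy, hy1, hy2⟩
          · have hHl : H ∈ l := by
              rw [h]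
              exact List.mem_append_right _ (List.mem_cons_of_mem _ hH)
            obtain ⟨T, hT, hFT⟩ := hmeet i F hF H hHl hHB
            refine ⟨T, Or.inr hT, y, hy, hy1, ?_⟩
            intro z hz
            exact hFT (Finset.mem_inter.2 ⟨Finset.mem_of_mem_erase hz, hy2 hz⟩)
        rintro G (hG | hG)
        · exact step G (List.mem_filter.1 hG).1
        · -- a boundary face
          have hcl : F ∩ G ∈ bd.biUnion Finset.powerset :=
            Finset.mem_biUnion.2 ⟨G, hG, Finset.mem_powerset.2 Finset.inter_subset_right⟩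
          have hne : fst (F ∩ G) ≠ F := fun e => hi _ hcl (by rw [e]; exact hF)
          have : ∃ G' ∈ l2, F ∩ G ⊆ G' := by
            by_contra hcon
            push Not at hcon
            exact hne (hfst l1 l2 F (F ∩ G) h Finset.inter_subset_left hcon)
          obtain ⟨G', hG', hFG'⟩ := this
          obtain ⟨H, hH, y, hy, hy1, hy2⟩ := step G' hG'
          refine ⟨H, hH, y, hy, ?_, hy2⟩
          intro z hz
          exact hy1 (Finset.mem_inter.2 ⟨(Finset.mem_inter.1 hz).1, hFG' hz⟩)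
      · rw [List.filter_cons_of_neg (by simpa using hF)]
        exact ih'
  exact key l [] (by simp) hl

end Pool.Agent.X161.CE
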