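import Pool.Agent.X161.CE.Defs
import Pool.Agent.X161.CE.Rel

/-!
# Many copies of a knotted ball
-/

set_option autoImplicit false

namespace Pool.Agent.X161.CE

open Finset Pool.Agent.Helper175.NS

/-- The vertex map of the `i`-th copy: the interior vertices are shifted. -/
def cp (I : Finset ℕ) (i v : ℕ) : ℕ := if v ∈ I then v + 64 * i else v

/-- The `i`-th copy of the family `B`. -/
def cop (I : Finset ℕ) (B : Finset (Finset ℕ)) (i : ℕ) : Finset (Finset ℕ) :=
  B.image (fun F => F.image (cp I i))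

/-- The data of the construction. -/
structure Setup (P B : Finset (Finset ℕ)) (I : Finset ℕ) (bd : Finset (Finset ℕ)) : Prop where
  hBP : B ⊆ P
  card : ∀ F ∈ P, F.card = 4
  lt : ∀ F ∈ P, ∀ v ∈ F, v < 64
  int : ∀ F ∈ B, ∃ v ∈ F, v ∈ I
  out : ∀ F ∈ P, F ∉ B → ∀ v ∈ F, v ∉ I
  ind : ∀ F ∈ B, ∃ T ∈ bd, F \ I ⊆ T
  bdc : ∀ T ∈ bd, T.card = 3 ∧ (∀ v ∈ T, v ∉ I) ∧ ∃ F ∈ B, T ⊆ F ∧ ∀ F' ∈ B, T ⊆ F' → F' = F
  bd2 : ∀ F ∈ B, ∀ y ∈ F, F.erase y ∈ bd ∨ ∃ F' ∈ B, F' ≠ F ∧ F.erase y ⊆ F'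
  ne : B.Nonempty
  prop : ∃ F ∈ P, F ∉ B

variable {P B : Finset (Finset ℕ)} {I : Finset ℕ} {bd : Finset (Finset ℕ)}

lemma cp_zero (v : ℕ) : cp I 0 v = v := by unfold cp; split_ifs <;> omega

lemma cop_zero : cop I B 0 = B := by
  unfold cop
  have : (fun F : Finset ℕ => F.image (cp I 0)) = id := by
    funext F
    have : cp I 0 = id := funext fun v => cp_zero v
    rw [this, Finset.image_id, id]
  rw [this, Finset.image_id]

lemma cp_mod {i v : ℕ} (hv : v < 64) : cp I i v % 64 = v := by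
  unfold cp; split_ifs <;> omega

lemma cp_inj {i u v : ℕ} (hu : u < 64) (hv : v < 64) (h : cp I i u = cp I i v) : u = v := by
  rw [← cp_mod (I := I) (i := i) hu, ← cp_mod (I := I) (i := i) hv, h]

/-- The facets of the whole complex. -/
def big (I : Finset ℕ) (P B : Finset (Finset ℕ)) (k : ℕ) : Finset (Finset ℕ) :=
  P ∪ (range (k + 1)).biUnion (cop I B)

lemma mem_big {k : ℕ} {X : Finset ℕ} :
    X ∈ big I P B k ↔ X ∈ P ∨ ∃ i, i < k + 1 ∧ X ∈ cop I B i := by
  unfold big
  rw [mem_union, mem_biUnion]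
  simp only [mem_range]

lemma mem_cop {i : ℕ} {X : Finset ℕ} : X ∈ cop I B i ↔ ∃ F ∈ B, F.image (cp I i) = X := by
  unfold cop
  rw [mem_image]

lemma cop_card (D : Setup P B I bd) {i : ℕ} {X : Finset ℕ} (hX : X ∈ cop I B i) :
    X.card = 4 := by
  obtain ⟨F, hF, rfl⟩ := mem_cop.1 hX
  rw [card_image_of_injOn, D.card F (D.hBP hF)]
  intro u hu v hv h
  exact cp_inj (D.lt F (D.hBP hF) u hu) (D.lt F (D.hBP hF) v hv) h

lemma big_card (D : Setup P B I bd) {k : ℕ} : ∀ X ∈ big I P B k, X.card = 4 := by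
  intro X hX
  rcases mem_big.1 hX with h | ⟨i, -, h⟩
  · exact D.card X h
  · exact cop_card D h

/-- The vertices of a facet outside the `i`-th copy. -/
lemma other_vertex (D : Setup P B I bd) {k i : ℕ} {G : Finset ℕ} (hG : G ∈ big I P B k)
    (hGi : G ∉ cop I B i) {v : ℕ} (hvI : v ∈ I) (hv : v < 64) : v + 64 * i ∉ G := by
  intro hmem
  rcases mem_big.1 hG with h | ⟨j, -, h⟩
  · have h1 := D.lt G h _ hmem
    have h2 : i = 0 := by omega
    subst h2
    rw [cop_zero] at hGi
    exact D.out G h hGi _ hmem (by simpa using hvI)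
  · obtain ⟨F, hF, rfl⟩ := mem_cop.1 h
    obtain ⟨w, hw, hwe⟩ := mem_image.1 hmem
    have hw64 := D.lt F (D.hBP hF) w hw
    unfold cp at hwe
    split_ifs at hwe with hwI
    · have : i = j := by omega
      subst this
      exact hGi (mem_cop.2 ⟨F, hF, rfl⟩)
    · have h1 : w = v := by omega
      subst h1
      exact hwI hvI

/-- The intersection of a facet of the `i`-th copy with a facet outside of it. -/
lemma meet (D : Setup P B I bd) {k i : ℕ} {F G : Finset ℕ} (hF : F ∈ B)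
    (hG : G ∈ big I P B k) (hGi : G ∉ cop I B i) : F.image (cp I i) ∩ G ⊆ F \ I := by
  intro z hz
  rw [mem_inter, mem_image] at hz
  obtain ⟨⟨v, hv, rfl⟩, hzG⟩ := hz
  by_cases hvI : v ∈ I
  · exfalso
    unfold cp at hzG
    rw [if_pos hvI] at hzG
    exact other_vertex D hG hGi hvI (D.lt F (D.hBP hF) v hv) hzG
  · unfold cp
    rw [if_neg hvI]
    exact mem_sdiff.2 ⟨hv, hvI⟩

lemma image_out {i : ℕ} {T : Finset ℕ} (h : ∀ v ∈ T, v ∉ I) : T.image (cp I i) = T := by
  ext z
  rw [mem_image]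
  constructor
  · rintro ⟨v, hv, rfl⟩
    unfold cp
    rw [if_neg (h v hv)]
    exact hv
  · intro hz
    refine ⟨z, hz, ?_⟩
    unfold cp
    rw [if_neg (h z hz)]

lemma cop_disj (D : Setup P B I bd) {i j : ℕ} (hij : i ≠ j) :
    Disjoint (cop I B i) (cop I B j) := by
  rw [disjoint_left]
  intro X hX hX'
  obtain ⟨F, hF, rfl⟩ := mem_cop.1 hX
  obtain ⟨v, hv, hvI⟩ := D.int F hF
  have hv64 := D.lt F (D.hBP hF) v hv
  have h1 : v + 64 * i ∈ F.image (cp I i) := by
    rw [mem_image]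
    refine ⟨v, hv, ?_⟩
    unfold cp
    rw [if_pos hvI]
  obtain ⟨F', hF', he⟩ := mem_cop.1 hX'
  rw [← he, mem_image] at h1
  obtain ⟨w, hw, hwe⟩ := h1
  have hw64 := D.lt F' (D.hBP hF') w hw
  unfold cp at hwe
  split_ifs at hwe with hwI
  · omega
  · have : w = v := by omega
    subst this
    exact hwI hvI

/-- The conditions on the flat connection. -/
structure Conn (B bd : Finset (Finset ℕ)) (K E : ℕ → Prop) (psi : ℕ → ℕ → Fin 3 → Fin 3)
    (col : ℕ → ℕ → Fin 3) (g0 : ℕ → Fin 3) : Prop where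
  good : ∀ F ∈ B, Good K psi col F
  flat0 : ∀ T ∈ bd, ∀ u ∈ T, ∀ v ∈ T, ¬ K u → ¬ K v → g0 v = psi u v (g0 u)
  ends : ∀ T ∈ bd, ∀ a ∈ T, K a → E a → ∀ w ∈ T, ¬ K w → g0 w = col a w
  endK : ∀ a, E a → K a ∧ ∃ T ∈ bd, a ∈ T
  two : ∀ F ∈ B, ∀ a ∈ F, ∀ b ∈ F, K a → K b → a ≠ b → E a ∨ E b
  nosec : ¬ ∃ g : ℕ → Fin 3, ∀ F ∈ B, ∀ u ∈ F, ∀ v ∈ F, ¬ K u → ¬ K v → g v = psi u v (g u)

/-- No shelling of the whole complex. -/
theorem not_shellable (D : Setup P B I bd) {K E : ℕ → Prop} {psi : ℕ → ℕ → Fin 3 → Fin 3}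
    {col : ℕ → ℕ → Fin 3} {g0 : ℕ → Fin 3} (C : Conn B bd K E psi col g0) {k : ℕ}
    (hk : (bd.biUnion Finset.powerset).card < k + 1) : ¬ (gen (big I P B k)).Shellable := by
  classical
  rintro ⟨-, l, hnd, hl, hsh⟩
  have hmem : ∀ F, F ∈ l ↔ F ∈ big I P B k := fun F => by
    rw [hl F, facet_gen (big_card D)]
  have h1 := shell_take l hsh l.length le_rfl
  rw [List.take_length] at h1
  have hbdne : bd.Nonempty := by
    obtain ⟨F, hF⟩ := D.ne
    obtain ⟨T, hT, -⟩ := D.ind F hF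
    exact ⟨T, hT⟩
  obtain ⟨i, hi⟩ := pigeon bd l.reverse (List.nodup_reverse.2 hnd) h1 (k + 1)
    (fun i : Fin (k + 1) => cop I B i) (fun i j hij => cop_disj D (fun h => hij (Fin.ext h)))
    (by
      intro i F hF G hG hGi
      rw [List.mem_reverse, hmem] at hG
      obtain ⟨F', hF', rfl⟩ := mem_cop.1 hF
      obtain ⟨T, hT, hT'⟩ := D.ind F' hF'
      exact ⟨T, hT, (meet D hF' hG hGi).trans hT'⟩)
    (by
      intro T hT
      obtain ⟨-, -, F, hF, hTF, -⟩ := D.bdc T hT
      exact ⟨F, by rw [List.mem_reverse, hmem]; exact mem_big.2 (Or.inl (D.hBP hF)), hTF⟩) hk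
  have hmem2 : ∀ X, X ∈ l.reverse.filter (fun F => F ∈ cop I B i) ↔ X ∈ cop I B i := by
    intro X
    rw [List.mem_filter, List.mem_reverse, hmem]
    simp only [decide_eq_true_eq]
    exact ⟨fun h => h.2, fun h => ⟨mem_big.2 (Or.inr ⟨i, i.2, h⟩), h⟩⟩
  have hEI : ∀ a, E a → a < 64 ∧ a ∉ I := by
    intro a ha
    obtain ⟨-, T, hT, haT⟩ := C.endK a ha
    obtain ⟨-, h2, F, hF, hTF, -⟩ := D.bdc T hT
    exact ⟨D.lt F (D.hBP hF) a (hTF haT), h2 a haT⟩
  have hT64 : ∀ T ∈ bd, ∀ v ∈ T, v % 64 = v := by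
    intro T hT v hv
    obtain ⟨-, -, F, hF, hTF, -⟩ := D.bdc T hT
    exact Nat.mod_eq_of_lt (D.lt F (D.hBP hF) v (hTF hv))
  obtain ⟨g, hg, -⟩ := rel_flat (fun a => K (a % 64)) (fun a => a < 64 ∧ E a)
    (fun u v => psi (u % 64) (v % 64)) (fun a w => col (a % 64) (w % 64)) bd hbdne
    (fun u => g0 (u % 64))
    (by
      intro T hT u hu v hv
      simp only [hT64 T hT u hu, hT64 T hT v hv]
      exact C.flat0 T hT u hu v hv)
    (by
      intro T hT a ha hKa hEa w hw
      simp only [hT64 T hT a ha, hT64 T hT w hw] at hKa ⊢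
      exact C.ends T hT a ha hKa hEa.2 w hw)
    (by
      rintro a ⟨ha, hEa⟩
      rw [Nat.mod_eq_of_lt ha]
      exact C.endK a hEa) _ hi
    (by
      intro X hX
      rw [hmem2] at hX
      have hc := cop_card D hX
      obtain ⟨F, hF, rfl⟩ := mem_cop.1 hX
      have hF64 : ∀ v ∈ F, cp I i v % 64 = v := fun v hv =>
        cp_mod (D.lt F (D.hBP hF) v hv)
      have hgd := C.good F hF
      refine ⟨hc, ?_, ?_, ?_, ?_, ?_⟩
      · intro u hu
        obtain ⟨u, hu', rfl⟩ := mem_image.1 hu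
        simp only [hF64 u hu']
        exact hgd.refl u hu'
      · intro u hu v hv w hw
        obtain ⟨u, hu', rfl⟩ := mem_image.1 hu
        obtain ⟨v, hv', rfl⟩ := mem_image.1 hv
        obtain ⟨w, hw', rfl⟩ := mem_image.1 hw
        simp only [hF64 u hu', hF64 v hv', hF64 w hw']
        exact hgd.coc u hu' v hv' w hw'
      · intro a ha hKa u hu v hv
        obtain ⟨a, ha', rfl⟩ := mem_image.1 ha
        obtain ⟨u, hu', rfl⟩ := mem_image.1 hu
        obtain ⟨v, hv', rfl⟩ := mem_image.1 hv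
        simp only [hF64 u hu', hF64 v hv', hF64 a ha'] at hKa ⊢
        exact hgd.colf a ha' hKa u hu' v hv'
      · intro a ha b hb hKa hKb u hu
        obtain ⟨a, ha', rfl⟩ := mem_image.1 ha
        obtain ⟨b, hb', rfl⟩ := mem_image.1 hb
        obtain ⟨u, hu', rfl⟩ := mem_image.1 hu
        simp only [hF64 u hu', hF64 b hb', hF64 a ha'] at hKa hKb ⊢
        exact hgd.cole a ha' b hb' hKa hKb u hu'
      · intro a ha b hb c hc hKa hKb hKc
        obtain ⟨a, ha', rfl⟩ := mem_image.1 ha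
        obtain ⟨b, hb', rfl⟩ := mem_image.1 hb
        obtain ⟨c, hc', rfl⟩ := mem_image.1 hc
        simp only [hF64 c hc', hF64 b hb', hF64 a ha'] at hKa hKb hKc
        rcases hgd.two a ha' b hb' c hc' hKa hKb hKc with h | h | h
        · exact Or.inl (by rw [h])
        · exact Or.inr (Or.inl (by rw [h]))
        · exact Or.inr (Or.inr (by rw [h])))
    (by
      intro X hX a ha b hb hKa hKb hab
      rw [hmem2] at hX
      obtain ⟨F, hF, rfl⟩ := mem_cop.1 hX
      obtain ⟨a, ha', rfl⟩ := mem_image.1 ha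
      obtain ⟨b, hb', rfl⟩ := mem_image.1 hb
      have hF64 : ∀ v ∈ F, cp I i v % 64 = v := fun v hv =>
        cp_mod (D.lt F (D.hBP hF) v hv)
      simp only [hF64 b hb', hF64 a ha'] at hKa hKb
      have key : ∀ e, E e → cp I i e < 64 ∧ E (cp I i e) := by
        intro e he
        obtain ⟨he1, he2⟩ := hEI e he
        unfold cp
        rw [if_neg he2]
        exact ⟨he1, he⟩
      rcases C.two F hF a ha' b hb' hKa hKb (fun h => hab (by rw [h])) with h | h
      · exact Or.inl (key a h)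
      · exact Or.inr (key b h))
  apply C.nosec
  refine ⟨fun v => g (cp I i v), ?_⟩
  intro F hF u hu v hv huK hvK
  have hu64 : cp I i u % 64 = u := cp_mod (D.lt F (D.hBP hF) u hu)
  have hv64 : cp I i v % 64 = v := cp_mod (D.lt F (D.hBP hF) v hv)
  have := hg (F.image (cp I i)) (Or.inl ((hmem2 _).2 (mem_cop.2 ⟨F, hF, rfl⟩))) (cp I i u)
    (mem_image_of_mem _ hu) (cp I i v) (mem_image_of_mem _ hv)
  simp only [hu64, hv64] at this
  exact this huK hvK

/-- The complex admits a convex ear decomposition. -/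
theorem convexEar (D : Setup P B I bd) (hpoly : IsPolytopeBoundary 4 (gen P))
    (hball : Nonempty (Sp B ≃ₜ Metric.closedBall (0 : EuclideanSpace ℝ (Fin 3)) 1)) (k : ℕ) :
    ConvexEar 4 (gen (big I P B k)) := by
  classical
  have hcard : ∀ i, ∀ X ∈ cop I B i, X.card = 4 := fun i X hX => cop_card D hX
  have pure_of : ∀ (L : Finset (Finset ℕ)), L.Nonempty → (∀ X ∈ L, X.card = 4) →
      PureOf 4 (gen L) := by
    rintro L ⟨X, hX⟩ hL
    refine ⟨⟨X, (facet_gen hL X).2 hX⟩, ?_⟩
    intro F hF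
    exact hL F ((facet_gen hL F).1 hF)
  have hPne : P.Nonempty := by
    obtain ⟨F, hF⟩ := D.ne
    exact ⟨F, D.hBP hF⟩
  have hcne : ∀ i, (cop I B i).Nonempty := by
    intro i
    obtain ⟨F, hF⟩ := D.ne
    exact ⟨_, mem_cop.2 ⟨F, hF, rfl⟩⟩
  refine ⟨pure_of _ ?_ (big_card D), k,
    fun j => if (j : ℕ) = 0 then gen P else gen (cop I B j), ?_, ?_, ?_, ?_, ?_⟩
  · obtain ⟨F, hF⟩ := hPne
    exact ⟨F, mem_big.2 (Or.inl hF)⟩
  · intro j
    by_cases hj : (j : ℕ) = 0
    · simp only [if_pos hj]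
      exact pure_of P hPne D.card
    · simp only [if_neg hj]
      exact pure_of _ (hcne j) (hcard j)
  · refine ⟨ℕ, gen P, hpoly, id, fun u v _ _ h => h, ?_⟩
    intro G
    simp only [Fin.val_zero, if_true, Set.image_id]
    constructor
    · intro hG
      exact ⟨G, hG, rfl⟩
    · rintro ⟨F, hF, he⟩
      rw [Finset.coe_inj.1 he]
      exact hF
  · intro j hj
    have hj0 : (j : ℕ) ≠ 0 := fun h => hj (Fin.ext h)
    simp only [if_neg hj0]
    have hS : ∀ F ∈ B, F ⊆ range 64 := fun F hF v hv => mem_range.2 (D.lt F (D.hBP hF) v hv)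
    constructor
    · obtain ⟨e⟩ := hball
      obtain ⟨e1⟩ := relabel_homeo B (cp I j) (range 64) hS (by
        intro u hu v hv h
        rw [mem_coe, mem_range] at hu hv
        exact cp_inj hu hv h)
      unfold IsBall
      rw [space_gen]
      exact ⟨e1.trans e⟩
    · refine ⟨ℕ, gen P, gen B, hpoly, ?_, cp I j, ?_, ?_⟩
      · rw [Finset.ssubset_iff_subset_ne]
        constructor
        · intro F hF
          obtain ⟨A, hA, hFA⟩ := mem_gen.1 hF
          exact mem_gen.2 ⟨A, D.hBP hA, hFA⟩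
        · intro h
          obtain ⟨F, hF, hFB⟩ := D.prop
          have h1 : F ∈ (gen B).faces := by
            rw [h]
            exact mem_gen.2 ⟨F, hF, Subset.refl F⟩
          obtain ⟨A, hA, hFA⟩ := mem_gen.1 h1
          have : F = A := eq_of_subset_of_card_le hFA
            (by rw [D.card F hF, D.card A (D.hBP hA)])
          rw [this] at hFB
          exact hFB hA
      · intro u v hu hv h
        obtain ⟨A, hA, huA⟩ := mem_gen.1 hu
        obtain ⟨A', hA', hvA'⟩ := mem_gen.1 hv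
        exact cp_inj (D.lt A (D.hBP hA) u (huA (mem_singleton_self _)))
          (D.lt A' (D.hBP hA') v (hvA' (mem_singleton_self _))) h
      · intro G
        constructor
        · intro hG
          obtain ⟨X, hX, hGX⟩ := mem_gen.1 hG
          obtain ⟨F, hF, rfl⟩ := mem_cop.1 hX
          refine ⟨F.filter (fun v => cp I j v ∈ G), mem_gen.2 ⟨F, hF, filter_subset _ _⟩, ?_⟩
          ext z
          simp only [Set.mem_image, mem_coe, mem_filter]
          constructor
          · intro hz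
            obtain ⟨v, hv, rfl⟩ := mem_image.1 (hGX hz)
            exact ⟨v, ⟨hv, hz⟩, rfl⟩
          · rintro ⟨v, ⟨-, hv⟩, rfl⟩
            exact hv
        · rintro ⟨F, hF, he⟩
          obtain ⟨A, hA, hFA⟩ := mem_gen.1 hF
          refine mem_gen.2 ⟨A.image (cp I j), mem_cop.2 ⟨A, hA, rfl⟩, ?_⟩
          intro z hz
          have : z ∈ (G : Set ℕ) := hz
          rw [he] at this
          obtain ⟨v, hv, rfl⟩ := this
          exact mem_image_of_mem _ (hFA hv)
  · intro j hj F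
    have hj0 : (j : ℕ) ≠ 0 := fun h => hj (Fin.ext h)
    simp only [if_neg hj0]
    constructor
    · rintro ⟨hF, i, hij, hFi⟩
      obtain ⟨X, hX, hFX⟩ := mem_gen.1 hF
      obtain ⟨A, hA, rfl⟩ := mem_cop.1 hX
      -- an earlier facet
      obtain ⟨G, hG, hGj, hFG⟩ : ∃ G ∈ big I P B k, G ∉ cop I B j ∧ F ⊆ G := by
        by_cases hi : (i : ℕ) = 0
        · simp only [if_pos hi] at hFi
          obtain ⟨G, hG, hFG⟩ := mem_gen.1 hFi
          refine ⟨G, mem_big.2 (Or.inl hG), ?_, hFG⟩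
          intro h
          obtain ⟨F', hF', he⟩ := mem_cop.1 h
          obtain ⟨v, hv, hvI⟩ := D.int F' hF'
          have h1 : cp I j v ∈ G := by
            rw [← he]
            exact mem_image_of_mem _ hv
          have h2 := D.lt G hG _ h1
          unfold cp at h2
          rw [if_pos hvI] at h2
          omega
        · simp only [if_neg hi] at hFi
          obtain ⟨G, hG, hFG⟩ := mem_gen.1 hFi
          refine ⟨G, mem_big.2 (Or.inr ⟨i, i.2, hG⟩), ?_, hFG⟩
          intro h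
          exact disjoint_left.1 (cop_disj D (fun h => (ne_of_lt hij) (Fin.ext h))) hG h
      obtain ⟨T, hT, hTA⟩ := D.ind A hA
      have hFT : F ⊆ T := fun z hz =>
        hTA (meet D hA hG hGj (mem_inter.2 ⟨hFX hz, hFG hz⟩))
      obtain ⟨hT3, hTI, A', hA', hTA', huniq⟩ := D.bdc T hT
      have hTj : T ⊆ A'.image (cp I j) := by
        rw [← image_out (I := I) (i := j) hTI]
        exact image_subset_image hTA'
      refine ⟨T, mem_gen.2 ⟨_, mem_cop.2 ⟨A', hA', rfl⟩, hTj⟩, hFT, by rw [hT3],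
        A'.image (cp I j), ⟨(facet_gen (hcard j) _).2 (mem_cop.2 ⟨A', hA', rfl⟩), hTj⟩, ?_⟩
      rintro H ⟨hH, hTH⟩
      rw [facet_gen (hcard j)] at hH
      obtain ⟨A'', hA'', rfl⟩ := mem_cop.1 hH
      have : T ⊆ A'' := by
        intro z hz
        obtain ⟨v, hv, hvz⟩ := mem_image.1 (hTH hz)
        have hz64 := D.lt A' (D.hBP hA') z (hTA' hz)
        have hv64 := D.lt A'' (D.hBP hA'') v hv
        have : cp I j v = cp I j z := by
          rw [hvz]
          unfold cp
          rw [if_neg (hTI z hz)]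
        rw [← cp_inj hv64 hz64 this]
        exact hv
      rw [huniq A'' hA'' this]
    · rintro ⟨G, hG, hFG, hG3, H, ⟨hH, hGH⟩, huniq⟩
      simp only at huniq
      rw [facet_gen (hcard j)] at hH
      obtain ⟨A, hA, rfl⟩ := mem_cop.1 hH
      have hA64 := D.lt A (D.hBP hA)
      -- `G` is the image of `A.erase y`
      obtain ⟨z, hz, hzG⟩ : ∃ z ∈ A.image (cp I j), z ∉ G := by
        by_contra hcon
        push Not at hcon
        have h1 := card_le_card (show A.image (cp I j) ⊆ G from hcon)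
        rw [hcard j _ (mem_cop.2 ⟨A, hA, rfl⟩)] at h1
        omega
      obtain ⟨y, hy, rfl⟩ := mem_image.1 hz
      have hGe : G = (A.erase y).image (cp I j) := by
        apply eq_of_subset_of_card_le
        · intro w hw
          obtain ⟨v, hv, rfl⟩ := mem_image.1 (hGH hw)
          refine mem_image_of_mem _ (mem_erase.2 ⟨?_, hv⟩)
          rintro rfl
          exact hzG hw
        · rw [card_image_of_injOn (fun u hu v hv h => cp_inj
            (hA64 u (mem_of_mem_erase hu)) (hA64 v (mem_of_mem_erase hv)) h),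
            card_erase_of_mem hy, D.card A (D.hBP hA)]
          omega
      rcases D.bd2 A hA y hy with h | ⟨A', hA', hne, hAA'⟩
      · obtain ⟨-, hTI, A', hA', hTA', -⟩ := D.bdc _ h
        rw [image_out hTI] at hGe
        subst hGe
        refine ⟨mem_gen.2 ⟨A.image (cp I j), mem_cop.2 ⟨A, hA, rfl⟩, hFG.trans hGH⟩, 0, ?_, ?_⟩
        · exact Fin.pos_iff_ne_zero.2 hj
        · simp only [Fin.val_zero, if_true]
          exact mem_gen.2 ⟨A', D.hBP hA', hFG.trans hTA'⟩
      · exfalso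
        have h1 := huniq (A'.image (cp I j))
          ⟨(facet_gen (hcard j) _).2 (mem_cop.2 ⟨A', hA', rfl⟩), by
            rw [hGe]; exact image_subset_image hAA'⟩
        apply hne
        have hA'64 := D.lt A' (D.hBP hA')
        ext v
        constructor
        · intro hv
          have h2 : cp I j v ∈ A.image (cp I j) := by
            rw [← h1]; exact mem_image_of_mem _ hv
          obtain ⟨w, hw, hwv⟩ := mem_image.1 h2
          rw [← cp_inj (hA64 w hw) (hA'64 v hv) hwv]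
          exact hw
        · intro hv
          have h2 : cp I j v ∈ A'.image (cp I j) := by
            rw [h1]; exact mem_image_of_mem _ hv
          obtain ⟨w, hw, hwv⟩ := mem_image.1 h2
          rw [← cp_inj (hA'64 w hw) (hA64 v hv) hwv]
          exact hw
  · intro F
    constructor
    · intro hF
      obtain ⟨X, hX, hFX⟩ := mem_gen.1 hF
      rcases mem_big.1 hX with h | ⟨i, hi, h⟩
      · refine ⟨0, ?_⟩
        simp only [Fin.val_zero, if_true]
        exact mem_gen.2 ⟨X, h, hFX⟩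
      · refine ⟨⟨i, hi⟩, ?_⟩
        by_cases hi0 : i = 0
        · simp only [if_pos hi0]
          subst hi0
          rw [cop_zero] at h
          exact mem_gen.2 ⟨X, D.hBP h, hFX⟩
        · simp only [if_neg hi0]
          exact mem_gen.2 ⟨X, h, hFX⟩
    · rintro ⟨j, hj⟩
      by_cases hj0 : (j : ℕ) = 0
      · simp only [if_pos hj0] at hj
        obtain ⟨X, hX, hFX⟩ := mem_gen.1 hj
        exact mem_gen.2 ⟨X, mem_big.2 (Or.inl hX), hFX⟩
      · simp only [if_neg hj0] at hj
        obtain ⟨X, hX, hFX⟩ := mem_gen.1 hj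
        exact mem_gen.2 ⟨X, mem_big.2 (Or.inr ⟨j, j.2, hX⟩), hFX⟩

end Pool.Agent.X161.CE
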