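import Pool.Agent.X161.CE.Data

/-!
# Kernel checks, first part
-/

set_option autoImplicit false

namespace Pool.Agent.X161.CE.Data

open Pool.Agent.X161.CE

theorem c1 : okR1 Rs Xs = true := by decide +kernel
theorem c2 : okR2 Rs Xs.length = true := by decide +kernel
theorem c3 : okR3 Rs = true := by decide +kernel
theorem c4 : okR4 Rs Xs.length = true := by decide +kernel

end Pool.Agent.X161.CE.Data
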