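import Pool.Agent.X161.CE.Poly

/-!
# Convex ear decompositions
-/

set_option autoImplicit false

namespace Pool.Agent.X161.CE

open Finset Pool.Agent.Helper175.NS

/-- Two complexes are isomorphic: a map `f` which is injective on the vertices of `Q` carries the
faces of `Q` exactly onto the faces of `K`. -/
def IsoCx {V W : Type} (Q : Cx V) (K : Cx W) : Prop :=
  ∃ f : V → W, (∀ u v, {u} ∈ Q.faces → {v} ∈ Q.faces → f u = f v → u = v) ∧
    ∀ G : Finset W, G ∈ K.faces ↔ ∃ F ∈ Q.faces, (G : Set W) = f '' (F : Set V)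

/-- The realization of the complex is homeomorphic to the closed unit ball of `ℝ^d`. -/
def IsBall (d : ℕ) {V : Type} (K : Cx V) : Prop :=
  Nonempty (K.space ≃ₜ Metric.closedBall (0 : EuclideanSpace ℝ (Fin d)) 1)

/-- There is a facet, and every facet has exactly `n` vertices. -/
def PureOf (n : ℕ) {V : Type} (K : Cx V) : Prop :=
  (∃ F, K.IsFacet F) ∧ ∀ F, K.IsFacet F → F.card = n

/-- `F` is a face of the boundary complex of the ball `K` all of whose facets have `n` vertices: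
`F` is contained in a face `G` with `n - 1` vertices that lies in exactly one facet. -/
def InBoundary (n : ℕ) {V : Type} (K : Cx V) (F : Finset V) : Prop :=
  ∃ G ∈ K.faces, F ⊆ G ∧ G.card + 1 = n ∧ ∃! H, K.IsFacet H ∧ G ⊆ H

/-- `Δ`, pure of dimension `d - 1`, admits a convex ear decomposition. -/
def ConvexEar (d : ℕ) {V : Type} (Δ : Cx V) : Prop :=
  PureOf d Δ ∧ ∃ (m : ℕ) (S : Fin (m + 1) → Cx V),
    (∀ j, PureOf d (S j)) ∧
    (∃ (W : Type) (P : Cx W), IsPolytopeBoundary d P ∧ IsoCx P (S 0)) ∧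
    (∀ j, j ≠ 0 → IsBall (d - 1) (S j) ∧
      ∃ (W : Type) (P Q : Cx W), IsPolytopeBoundary d P ∧ Q.faces ⊂ P.faces ∧ IsoCx Q (S j)) ∧
    (∀ j, j ≠ 0 → ∀ F, (F ∈ (S j).faces ∧ ∃ i, i < j ∧ F ∈ (S i).faces) ↔
      InBoundary d (S j) F) ∧
    ∀ F, F ∈ Δ.faces ↔ ∃ j, F ∈ (S j).faces

end Pool.Agent.X161.CE
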