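import Pool.Agent.X161.CE.Inst

/-!
# Loops without a common fixed colour, and the final assembly
-/

set_option autoImplicit false

namespace Pool.Agent.X161.CE

open Finset Pool.Agent.Helper175.NS

/-- The consecutive vertices of the path `u :: l` lie in common facets and are not singular. -/
def okPath (bm : List ℕ) (km : ℕ) : ℕ → List ℕ → Bool
  | _, [] => true
  | u, v :: l => (!(km.testBit u)) && (!(km.testBit v)) && decide (u < 64) && decide (v < 64) &&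
      bm.any (fun m => m.testBit u && m.testBit v) && okPath bm km v l

def walk (N : ℕ) : ℕ → List ℕ → Fin 3 → Fin 3
  | _, [], c => c
  | u, v :: l, c => walk N v l (psi N u v c)

def endp : ℕ → List ℕ → ℕ
  | u, [] => u
  | _, v :: l => endp v l

theorem walk_sound {N km : ℕ} {bm : List ℕ} {g : ℕ → Fin 3}
    (hg : ∀ m ∈ bm, ∀ u ∈ bt m, ∀ v ∈ bt m, ¬ KK km u → ¬ KK km v → g v = psi N u v (g u))
    (l : List ℕ) : ∀ u, okPath bm km u l = true → g (endp u l) = walk N u l (g u) := by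
  induction l with
  | nil => intro u _; rfl
  | cons v l ih =>
    intro u h
    simp only [okPath, Bool.and_eq_true, Bool.not_eq_true', decide_eq_true_eq,
      List.any_eq_true] at h
    obtain ⟨⟨⟨⟨⟨h1, h2⟩, h3⟩, h4⟩, m, hm, h5⟩, h6⟩ := h
    show g (endp v l) = walk N v l (psi N u v (g u))
    rw [ih v h6, ← hg m hm u (mem_bt.2 (mem_de.2 ⟨h3, h5.1⟩)) v (mem_bt.2 (mem_de.2 ⟨h4, h5.2⟩))
      (by unfold KK; simp [h1]) (by unfold KK; simp [h2])]

theorem nosec_of {N km : ℕ} {bm : List ℕ} (r : ℕ) (l1 l2 : List ℕ)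
    (h1 : okPath bm km r l1 = true) (h2 : okPath bm km r l2 = true) (e1 : endp r l1 = r)
    (e2 : endp r l2 = r) (h3 : ∀ c, ¬ (walk N r l1 c = c ∧ walk N r l2 c = c)) :
    ¬ ∃ g : ℕ → Fin 3, ∀ m ∈ bm, ∀ u ∈ bt m, ∀ v ∈ bt m, ¬ KK km u → ¬ KK km v →
      g v = psi N u v (g u) := by
  rintro ⟨g, hg⟩
  have k1 := walk_sound hg l1 r h1
  have k2 := walk_sound hg l2 r h2
  rw [e1] at k1
  rw [e2] at k2
  exact h3 (g r) ⟨k1.symm, k2.symm⟩

/-- The final assembly from Boolean checks. -/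
theorem final {Rs : List Rec} {Xs : List Z4} {tm : List ℕ} {Am Im N M km em r t : ℕ}
    {l1 l2 : List ℕ} {ms : List (ℕ × ℕ)}
    (hn : Xs.length ≤ 64) (h4 : 4 < Xs.length) (hne : Rs ≠ [])
    (c1 : okR1 Rs Xs = true) (c2 : okR2 Rs Xs.length = true) (c3 : okR3 Rs = true)
    (c4 : okR4 Rs Xs.length = true) (c5 : okB (mk Rs) tm Am Im = true)
    (c6 : ∀ m ∈ bl (mk Rs) Am, GoodB N M km (bt m)) (c7 : ∀ t ∈ tm, Good0 N M km em (bt t))
    (c8 : GoodE km em tm) (c9 : ∀ m ∈ bl (mk Rs) Am, Good2 km em (bt m))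
    (p1 : okPath (bl (mk Rs) Am) km r l1 = true) (p2 : okPath (bl (mk Rs) Am) km r l2 = true)
    (p3 : endp r l1 = r) (p4 : endp r l2 = r)
    (p5 : ∀ c, ¬ (walk N r l1 c = c ∧ walk N r l2 c = c))
    (q1 : chB (bl (mk Rs) Am) ms t = true) (q2 : (bt t).length = 4)
    (q3 : ∀ m ∈ bl (mk Rs) Am, m < 2 ^ 63) :
    ∃ Δ : Cx ℕ, ConvexEar 4 Δ ∧ ¬ Δ.Shellable := by
  have D := setup_of c5
  have C := conn_of c6 c7 c8 c9 (nosec_of r l1 l2 p1 p2 p3 p4 p5)
  have hpoly := polytope_of_cert (cert_of hn h4 hne c1 c2 c3 c4)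
  obtain ⟨e1⟩ := ch_homeo ms _ t q3 q1
  obtain ⟨e2⟩ := Pool.Agent.H933R3.simplex_ball (de t) 3 (by rw [de_card, q2])
  exact ⟨gen (big (de Im) (deL (mk Rs)) (deL (bl (mk Rs) Am))
      ((deL tm).biUnion Finset.powerset).card),
    convexEar D hpoly ⟨e1.trans e2⟩ _, not_shellable D C (Nat.lt_succ_self _)⟩

end Pool.Agent.X161.CE
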