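import Pool.Agent.X161.CE.Asm
import Pool.Agent.H933R3.Ball

/-!
# Bit masks
-/

set_option autoImplicit false

namespace Pool.Agent.X161.CE

open Finset Pool.Agent.Helper175.NS

/-- the set with a given bit mask -/
def de (m : ℕ) : Finset ℕ := (range 64).filter (fun i => m.testBit i = true)

theorem mem_de {m n : ℕ} : n ∈ de m ↔ n < 64 ∧ m.testBit n = true := by
  rw [de, mem_filter, mem_range]

def deL (l : List ℕ) : Finset (Finset ℕ) := (l.map de).toFinset

theorem mem_deL {l : List ℕ} {A : Finset ℕ} : A ∈ deL l ↔ ∃ m ∈ l, de m = A := by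
  rw [deL, List.mem_toFinset, List.mem_map]

def bt (m : ℕ) : List ℕ := (List.range 64).filter (fun i => m.testBit i)

theorem mem_bt {m n : ℕ} : n ∈ bt m ↔ n ∈ de m := by
  rw [bt, List.mem_filter, List.mem_range, mem_de]

/-- inclusion of masks -/
def le (a b : ℕ) : Bool := (a &&& b) == a

theorem bit_lt {m i : ℕ} (hm : m < 2 ^ 64) (h : m.testBit i = true) : i < 64 := by
  by_contra hcon
  rw [Nat.testBit_eq_false_of_lt (hm.trans_le (Nat.pow_le_pow_right (by norm_num) (by omega)))] at h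
  exact absurd h (by decide)

theorem le_iff {a b : ℕ} (ha : a < 2 ^ 64) : le a b = true ↔ de a ⊆ de b := by
  rw [le, beq_iff_eq]
  constructor
  · intro h n hn
    rw [mem_de] at hn ⊢
    refine ⟨hn.1, ?_⟩
    have h1 := congrArg (fun k => Nat.testBit k n) h
    simp only [Nat.testBit_land, hn.2, Bool.true_and] at h1
    exact h1
  · intro h
    apply Nat.eq_of_testBit_eq
    intro i
    rw [Nat.testBit_land]
    cases h1 : a.testBit i with
    | false => simp
    | true =>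
      have h2 := h (mem_de.2 ⟨bit_lt ha h1, h1⟩)
      rw [mem_de] at h2
      simp [h2.2]

theorem de_inj {a b : ℕ} (ha : a < 2 ^ 64) (hb : b < 2 ^ 64) (h : de a = de b) : a = b := by
  apply Nat.eq_of_testBit_eq
  intro i
  by_cases hi : i < 64
  · have h1 : i ∈ de a ↔ i ∈ de b := by rw [h]
    rw [mem_de, mem_de] at h1
    simp only [hi, true_and] at h1
    cases h2 : a.testBit i <;> cases h3 : b.testBit i <;> simp_all
  · rw [Nat.testBit_eq_false_of_lt (ha.trans_le (Nat.pow_le_pow_right (by norm_num) (by omega))),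
      Nat.testBit_eq_false_of_lt (hb.trans_le (Nat.pow_le_pow_right (by norm_num) (by omega)))]

theorem de_xor {m z : ℕ} (hz : z ∈ de m) : de (m ^^^ 2 ^ z) = (de m).erase z := by
  rw [mem_de] at hz
  ext n
  rw [mem_erase, mem_de, mem_de, Nat.testBit_xor, Nat.testBit_two_pow]
  by_cases h2 : n = z
  · subst h2
    simp [hz.2]
  · simp [h2, Ne.symm h2]

theorem xor_lt {m z : ℕ} (hm : m < 2 ^ 64) (hz : z ∈ de m) : m ^^^ 2 ^ z < 2 ^ 64 :=
  Nat.xor_lt_two_pow hm (Nat.pow_lt_pow_right (by norm_num) (mem_de.1 hz).1)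

theorem de_swap {m z v : ℕ} (hz : z ∈ de m) (hv : v < 64) (hzv : z ≠ v) :
    de ((m ^^^ 2 ^ z) ||| 2 ^ v) = insert v ((de m).erase z) := by
  rw [mem_de] at hz
  ext n
  rw [mem_insert, mem_erase, mem_de, mem_de, Nat.testBit_lor, Nat.testBit_xor,
    Nat.testBit_two_pow, Nat.testBit_two_pow]
  by_cases h1 : n = v
  · subst h1
    simp [hv]
  · by_cases h2 : n = z
    · subst h2
      simp [hz.2, h1, Ne.symm h1]
    · simp [h1, h2, Ne.symm h1, Ne.symm h2]

/-- subdivision of a list of masks with the new vertex `63` -/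
def stB (l : List ℕ) (ρ : ℕ) : List ℕ :=
  l.flatMap (fun m => if le ρ m then (bt ρ).map (fun z => (m ^^^ 2 ^ z) ||| 2 ^ 63) else [m])

theorem deL_stB (l : List ℕ) (ρ : ℕ) (hρ : ρ < 2 ^ 63) :
    deL (stB l ρ) = star (deL l) (de ρ) 63 := by
  have hρ' : ρ < 2 ^ 64 := hρ.trans (by norm_num)
  have h13 : 63 ∉ de ρ := by
    rw [mem_de]
    rintro ⟨_, h⟩
    rw [Nat.testBit_eq_false_of_lt hρ] at h
    exact absurd h (by decide)
  ext A
  rw [mem_deL, mem_star]
  constructor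
  · rintro ⟨m', hm', rfl⟩
    rw [stB, List.mem_flatMap] at hm'
    obtain ⟨m, hm, h1⟩ := hm'
    split_ifs at h1 with h2
    · rw [List.mem_map] at h1
      obtain ⟨z, hz, rfl⟩ := h1
      rw [mem_bt] at hz
      have h3 := (le_iff hρ').1 h2
      right
      refine ⟨de m, mem_deL.2 ⟨m, hm, rfl⟩, h3, z, hz, ?_⟩
      rw [de_swap (v := 63) (h3 hz) (by norm_num) (fun h => h13 (by rw [← h]; exact hz))]
    · rw [List.mem_singleton] at h1
      subst h1
      left
      exact ⟨mem_deL.2 ⟨m', hm, rfl⟩, fun h => h2 ((le_iff hρ').2 h)⟩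
  · rintro (⟨h1, h2⟩ | ⟨F, h1, h2, z, hz, rfl⟩)
    · obtain ⟨m, hm, rfl⟩ := mem_deL.1 h1
      refine ⟨m, ?_, rfl⟩
      rw [stB, List.mem_flatMap]
      refine ⟨m, hm, ?_⟩
      rw [if_neg (fun h => h2 ((le_iff hρ').1 h))]
      exact List.mem_singleton_self _
    · obtain ⟨m, hm, rfl⟩ := mem_deL.1 h1
      refine ⟨(m ^^^ 2 ^ z) ||| 2 ^ 63, ?_, ?_⟩
      · rw [stB, List.mem_flatMap]
        refine ⟨m, hm, ?_⟩
        rw [if_pos ((le_iff hρ').2 h2), List.mem_map]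
        exact ⟨z, mem_bt.2 hz, rfl⟩
      · rw [de_swap (v := 63) (h2 hz) (by norm_num) (fun h => h13 (by rw [← h]; exact hz))]

def sameB (l l' : List ℕ) : Bool :=
  l.all (fun m => l'.contains m) && l'.all (fun m => l.contains m)

theorem deL_of_sameB {l l' : List ℕ} (h : sameB l l' = true) : deL l = deL l' := by
  rw [sameB, Bool.and_eq_true, List.all_eq_true, List.all_eq_true] at h
  ext A
  rw [mem_deL, mem_deL]
  constructor
  · rintro ⟨m, hm, rfl⟩
    exact ⟨m, by simpa using h.1 m hm, rfl⟩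
  · rintro ⟨m, hm, rfl⟩
    exact ⟨m, by simpa using h.2 m hm, rfl⟩

/-- The new facets in the exchange of `ρ` and `ρ'`; `l` is the list of the facets containing
`ρ`. -/
def nwB (l : List ℕ) (ρ ρ' : ℕ) : List ℕ :=
  (l.filter (fun m => le (ρ' ^^^ 2 ^ ((bt ρ').headD 0)) m)).flatMap
    (fun m => (bt ρ).map (fun z => ((m ^^^ ρ) ||| (ρ ^^^ 2 ^ z)) ||| ρ'))

/-- The exchange is correct; `u` are the facets not containing `ρ`, `l` those containing it. -/
def okS (u l n : List ℕ) (ρ ρ' : ℕ) : Bool :=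
  u.all (fun m => !(le ρ' m)) && sameB (stB l ρ) (stB n ρ') &&
    n.all (fun m => decide (m < 2 ^ 63)) &&
    decide (ρ < 2 ^ 63) && decide (ρ' < 2 ^ 63) && decide (0 < ρ) && decide (0 < ρ')

def chB : List ℕ → List (ℕ × ℕ) → ℕ → Bool
  | l, [], t => sameB l [t]
  | l, r :: ms, t =>
    let u := l.filter (fun m => !(le r.1 m))
    let l1 := l.filter (fun m => le r.1 m)
    let n := nwB l1 r.1 r.2
    okS u l1 n r.1 r.2 && chB (u ++ n) ms t

theorem star_split {V : Type} [DecidableEq V] (L : Finset (Finset V)) (ρ : Finset V) (v : V) :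
    star L ρ v = L.filter (fun F => ¬ ρ ⊆ F) ∪ star (L.filter (fun F => ρ ⊆ F)) ρ v := by
  ext A
  rw [mem_union, mem_star, mem_star, mem_filter]
  constructor
  · rintro (⟨h1, h2⟩ | ⟨F, h1, h2, z, hz, rfl⟩)
    · exact Or.inl ⟨h1, h2⟩
    · exact Or.inr (Or.inr ⟨F, mem_filter.2 ⟨h1, h2⟩, h2, z, hz, rfl⟩)
  · rintro (⟨h1, h2⟩ | ⟨h1, h2⟩ | ⟨F, h1, h2, z, hz, rfl⟩)
    · exact Or.inl ⟨h1, h2⟩
    · exact absurd (mem_filter.1 h1).2 h2
    · exact Or.inr ⟨F, (mem_filter.1 h1).1, h2, z, hz, rfl⟩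

theorem star_union {V : Type} [DecidableEq V] (U N : Finset (Finset V)) (ρ : Finset V) (v : V)
    (h : ∀ F ∈ U, ¬ ρ ⊆ F) : star (U ∪ N) ρ v = U ∪ star N ρ v := by
  ext A
  rw [mem_union, mem_star, mem_star]
  constructor
  · rintro (⟨h1, h2⟩ | ⟨F, h1, h2, z, hz, rfl⟩)
    · rcases mem_union.1 h1 with h1 | h1
      · exact Or.inl h1
      · exact Or.inr (Or.inl ⟨h1, h2⟩)
    · rcases mem_union.1 h1 with h1 | h1
      · exact absurd h2 (h F h1)
      · exact Or.inr (Or.inr ⟨F, h1, h2, z, hz, rfl⟩)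
  · rintro (h1 | ⟨h1, h2⟩ | ⟨F, h1, h2, z, hz, rfl⟩)
    · exact Or.inl ⟨mem_union_left _ h1, h A h1⟩
    · exact Or.inl ⟨mem_union_right _ h1, h2⟩
    · exact Or.inr ⟨F, mem_union_right _ h1, h2, z, hz, rfl⟩

theorem deL_append (l l' : List ℕ) : deL (l ++ l') = deL l ∪ deL l' := by
  ext A
  rw [mem_union, mem_deL, mem_deL, mem_deL]
  simp only [List.mem_append]
  constructor
  · rintro ⟨m, h | h, rfl⟩
    · exact Or.inl ⟨m, h, rfl⟩
    · exact Or.inr ⟨m, h, rfl⟩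
  · rintro (⟨m, h, rfl⟩ | ⟨m, h, rfl⟩)
    · exact ⟨m, Or.inl h, rfl⟩
    · exact ⟨m, Or.inr h, rfl⟩

theorem deL_filter (l : List ℕ) (ρ : ℕ) (hρ : ρ < 2 ^ 64) :
    deL (l.filter (fun m => le ρ m)) = (deL l).filter (fun F => de ρ ⊆ F) := by
  ext A
  rw [mem_filter, mem_deL, mem_deL]
  constructor
  · rintro ⟨m, hm, rfl⟩
    rw [List.mem_filter] at hm
    exact ⟨⟨m, hm.1, rfl⟩, (le_iff hρ).1 hm.2⟩
  · rintro ⟨⟨m, hm, rfl⟩, h⟩
    exact ⟨m, List.mem_filter.2 ⟨hm, (le_iff hρ).2 h⟩, rfl⟩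

theorem deL_filter' (l : List ℕ) (ρ : ℕ) (hρ : ρ < 2 ^ 64) :
    deL (l.filter (fun m => !(le ρ m))) = (deL l).filter (fun F => ¬ de ρ ⊆ F) := by
  ext A
  rw [mem_filter, mem_deL, mem_deL]
  constructor
  · rintro ⟨m, hm, rfl⟩
    rw [List.mem_filter, Bool.not_eq_true'] at hm
    exact ⟨⟨m, hm.1, rfl⟩, fun h => by rw [(le_iff hρ).2 h] at hm; exact absurd hm.2 (by simp)⟩
  · rintro ⟨⟨m, hm, rfl⟩, h⟩
    refine ⟨m, List.mem_filter.2 ⟨hm, ?_⟩, rfl⟩
    rw [Bool.not_eq_true', Bool.eq_false_iff]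
    exact fun h' => h ((le_iff hρ).1 h')

theorem de_ne {m : ℕ} (h : 0 < m) (hm : m < 2 ^ 64) : (de m).Nonempty := by
  by_contra hcon
  rw [not_nonempty_iff_eq_empty] at hcon
  have h1 : de m = de 0 := by
    rw [hcon]
    ext n
    rw [mem_de]
    simp
  have := de_inj hm (by norm_num) h1
  omega

theorem not63 {m : ℕ} (hm : m < 2 ^ 63) : 63 ∉ de m := by
  rw [mem_de]
  rintro ⟨_, h⟩
  rw [Nat.testBit_eq_false_of_lt hm] at h
  exact absurd h (by decide)

theorem ch_homeo (ms : List (ℕ × ℕ)) : ∀ (l : List ℕ) (t : ℕ), (∀ m ∈ l, m < 2 ^ 63) →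
    chB l ms t = true → Nonempty (Sp (deL l) ≃ₜ Sp ({de t} : Finset (Finset ℕ))) := by
  induction ms with
  | nil =>
    intro l t _ h
    rw [chB] at h
    rw [deL_of_sameB h]
    have : deL [t] = {de t} := by rw [deL]; simp
    rw [this]
    exact ⟨Homeomorph.refl _⟩
  | cons r ms ih =>
    intro l t hl h
    rw [chB, Bool.and_eq_true] at h
    obtain ⟨h1, h2⟩ := h
    simp only [okS, Bool.and_eq_true, decide_eq_true_eq, List.all_eq_true] at h1
    obtain ⟨⟨⟨⟨⟨⟨h0, h3⟩, h4⟩, h5⟩, h6⟩, h7⟩, h8⟩ := h1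
    have hl' : ∀ m ∈ l.filter (fun m => !(le r.1 m)) ++
        nwB (l.filter (fun m => le r.1 m)) r.1 r.2, m < 2 ^ 63 := by
      intro m hm
      rcases List.mem_append.1 hm with hm | hm
      · exact hl m (List.mem_filter.1 hm).1
      · exact h4 m hm
    obtain ⟨e1⟩ := ih _ t hl' h2
    have hlt : ∀ m : ℕ, m < 2 ^ 63 → m < 2 ^ 64 := fun m hm => hm.trans (by norm_num)
    obtain ⟨e2⟩ := star_homeo (deL l) (de r.1) 63 (de_ne h7 (hlt _ h5)) (by
      intro F hF
      obtain ⟨m, hm, rfl⟩ := mem_deL.1 hF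
      exact not63 (hl m hm)) (not63 h5)
    obtain ⟨e3⟩ := star_homeo (deL (l.filter (fun m => !(le r.1 m)) ++
        nwB (l.filter (fun m => le r.1 m)) r.1 r.2)) (de r.2) 63 (de_ne h8 (hlt _ h6)) (by
      intro F hF
      obtain ⟨m, hm, rfl⟩ := mem_deL.1 hF
      exact not63 (hl' m hm)) (not63 h6)
    have key : star (deL l) (de r.1) 63 = star (deL (l.filter (fun m => !(le r.1 m)) ++
        nwB (l.filter (fun m => le r.1 m)) r.1 r.2)) (de r.2) 63 := by
      rw [star_split (deL l), deL_append, star_union, ← deL_filter _ _ (hlt _ h5),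
        ← deL_filter' _ _ (hlt _ h5), ← deL_stB _ _ h5, ← deL_stB _ _ h6, deL_of_sameB h3]
      intro F hF hF'
      obtain ⟨m, hm, rfl⟩ := mem_deL.1 hF
      have := h0 m hm
      rw [(le_iff (hlt _ h6)).2 hF'] at this
      exact absurd this (by simp)
    rw [key] at e2
    exact ⟨e2.symm.trans (e3.trans e1)⟩

end Pool.Agent.X161.CE
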