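import Pool.Agent.Helper175.NS.Main

/-!
# Certifying the boundary complex of a simplicial polytope
-/

set_option autoImplicit false

namespace Pool.Agent.X161.CE

open Finset Pool.Agent.Helper175.NS

/-- The complex `K` is the boundary complex of a simplicial `d`-polytope: there are a finite
vertex set `W` and points `x v` of `ℝ^d` such that, for the polytope `P = conv {x v | v ∈ W}`,
the polytope has dimension `d` (affine span everything), all the points `x v` are vertices, the
vertex set of every member of `K` is affinely independent, and the members of `K` are exactly the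
vertex sets of the proper faces of `P` (the empty face included), where the faces are given by the
linear functionals `ℓ` and their maximum values `c`. -/
def IsPolytopeBoundary (d : ℕ) {V : Type} (K : Cx V) : Prop :=
  ∃ (W : Finset V) (x : V → (Fin d → ℝ)),
    affineSpan ℝ (x '' (W : Set V)) = ⊤ ∧
    (∀ v ∈ W, {v} ∈ K.faces) ∧
    (∀ F ∈ K.faces, AffineIndependent ℝ (fun v : F => x v)) ∧
    ∀ F : Finset V, F ∈ K.faces ↔ F ⊆ W ∧ F ≠ W ∧
      ∃ (ℓ : (Fin d → ℝ) →ₗ[ℝ] ℝ) (c : ℝ), (∀ v ∈ F, ℓ (x v) = c) ∧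
        ∀ v ∈ W, v ∉ F → ℓ (x v) < c

/-- The data of a certificate. -/
structure Cert (d : ℕ) {V : Type} [DecidableEq V] (W : Finset V) (L : Finset (Finset V))
    (x : V → (Fin d → ℝ)) (a : Finset V → (Fin d → ℝ)) (b : Finset V → ℝ) : Prop where
  card : ∀ A ∈ L, A.card = d
  sub : ∀ A ∈ L, A ⊆ W
  on : ∀ A ∈ L, ∀ v ∈ A, ∑ i, a A i * x v i = b A
  off : ∀ A ∈ L, ∀ v ∈ W, v ∉ A → ∑ i, a A i * x v i < b A
  ridge : ∀ A ∈ L, ∀ j ∈ A, ∃ G ∈ L, A.erase j ⊆ G ∧ j ∉ G
  sep : ∀ A ∈ L, ∀ F ⊆ A, ∀ v ∈ W, v ∉ F → ∃ G ∈ L, F ⊆ G ∧ v ∉ G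
  cov : ∀ v ∈ W, ∃ A ∈ L, v ∈ A
  ne : L.Nonempty
  big : d < W.card

variable {d : ℕ} {V : Type} [DecidableEq V] {W : Finset V} {L : Finset (Finset V)}
  {x : V → (Fin d → ℝ)} {a : Finset V → (Fin d → ℝ)} {b : Finset V → ℝ}

/-- The functional of a facet. -/
noncomputable def lam (a : Finset V → (Fin d → ℝ)) (A : Finset V) : (Fin d → ℝ) →ₗ[ℝ] ℝ where
  toFun z := ∑ i, a A i * z i
  map_add' y z := by
    rw [← Finset.sum_add_distrib]
    exact Finset.sum_congr rfl fun i _ => by rw [Pi.add_apply]; ring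
  map_smul' c z := by
    rw [RingHom.id_apply, smul_eq_mul, Finset.mul_sum]
    exact Finset.sum_congr rfl fun i _ => by rw [Pi.smul_apply, smul_eq_mul]; ring

lemma lam_apply (A : Finset V) (z : Fin d → ℝ) : lam a A z = ∑ i, a A i * z i := rfl

lemma lam_on (C : Cert d W L x a b) {A : Finset V} (hA : A ∈ L) {v : V} (hv : v ∈ A) :
    lam a A (x v) = b A := C.on A hA v hv

lemma lam_off (C : Cert d W L x a b) {A : Finset V} (hA : A ∈ L) {v : V} (hv : v ∈ W)
    (h : v ∉ A) : lam a A (x v) < b A := C.off A hA v hv h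

lemma lam_le (C : Cert d W L x a b) {A : Finset V} (hA : A ∈ L) {v : V} (hv : v ∈ W) :
    lam a A (x v) ≤ b A := by
  by_cases h : v ∈ A
  · exact (lam_on C hA h).le
  · exact (lam_off C hA hv h).le

lemma exists_out (C : Cert d W L x a b) {A : Finset V} (hA : A ∈ L) : ∃ v ∈ W, v ∉ A := by
  by_contra hcon
  push Not at hcon
  have h1 := Finset.card_le_card (show W ⊆ A from hcon)
  have h2 := C.card A hA
  have h3 := C.big
  omega

/-- A weighted sum over the vertices of a facet with vanishing total point and mass vanishes. -/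
lemma weights_zero (C : Cert d W L x a b) {A : Finset V} (hA : A ∈ L) (t : V → ℝ)
    (h1 : ∑ v ∈ A, t v = 0) (h2 : ∑ v ∈ A, t v • x v = 0) : ∀ j ∈ A, t j = 0 := by
  intro j hj
  obtain ⟨G, hG, hGA, hjG⟩ := C.ridge A hA j hj
  have e : ∑ v ∈ A, t v * (lam a G (x v) - b G) = 0 := by
    have e1 : ∑ v ∈ A, t v * (lam a G (x v) - b G) =
        lam a G (∑ v ∈ A, t v • x v) - b G * ∑ v ∈ A, t v := by
      rw [map_sum, Finset.mul_sum, ← Finset.sum_sub_distrib]
      refine Finset.sum_congr rfl fun v _ => ?_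
      rw [map_smul, smul_eq_mul]; ring
    rw [e1, h1, h2, map_zero]; ring
  rw [← Finset.add_sum_erase A _ hj] at e
  have e2 : ∑ v ∈ A.erase j, t v * (lam a G (x v) - b G) = 0 := by
    refine Finset.sum_eq_zero fun v hv => ?_
    rw [lam_on C hG (hGA hv)]; ring
  rw [e2, add_zero] at e
  have h3 := lam_off C hG (C.sub A hA hj) hjG
  rcases mul_eq_zero.1 e with h | h
  · exact h
  · linarith

/-- Affine coordinates with respect to the vertices of a facet. -/
lemma coords (C : Cert d W L x a b) {A : Finset V} (hA : A ∈ L) (z : Fin d → ℝ) (s : ℝ)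
    (hz : lam a A z = s * b A) : ∃ t : V → ℝ, ∑ v ∈ A, t v = s ∧ ∑ v ∈ A, t v • x v = z := by
  classical
  -- the functional on `ℝ^d × ℝ`
  let Λ : ((Fin d → ℝ) × ℝ) →ₗ[ℝ] ℝ :=
    (lam a A).comp (LinearMap.fst ℝ _ _) - (b A) • LinearMap.snd ℝ (Fin d → ℝ) ℝ
  have hΛ : ∀ (y : Fin d → ℝ) (r : ℝ), Λ (y, r) = lam a A y - b A * r := by
    intro y r
    simp [Λ]
  let Φ : (A → ℝ) →ₗ[ℝ] ((Fin d → ℝ) × ℝ) :=
    { toFun := fun t => (∑ v, t v • x v, ∑ v, t v)
      map_add' := by
        intro t t'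
        simp only [Pi.add_apply, add_smul, Finset.sum_add_distrib, Prod.mk_add_mk]
      map_smul' := by
        intro c t
        simp only [Pi.smul_apply, smul_eq_mul, RingHom.id_apply, Prod.smul_mk, Finset.smul_sum,
          Finset.mul_sum, mul_smul] }
  have hΦ : ∀ t : A → ℝ, Λ (Φ t) = 0 := by
    intro t
    change Λ (∑ v, t v • x v, ∑ v, t v) = 0
    rw [hΛ, map_sum, Finset.mul_sum, ← Finset.sum_sub_distrib]
    refine Finset.sum_eq_zero fun v _ => ?_
    rw [map_smul, smul_eq_mul, lam_on C hA v.2]; ring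
  let Ψ : (A → ℝ) →ₗ[ℝ] LinearMap.ker Λ := Φ.codRestrict _ (fun t => hΦ t)
  have hinj : Function.Injective Ψ := by
    rw [← LinearMap.ker_eq_bot, LinearMap.ker_eq_bot']
    intro t ht
    have h1 : Φ t = 0 := congrArg Subtype.val ht
    have h2 : ∑ v, t v • x v = 0 := congrArg Prod.fst h1
    have h3 : ∑ v, t v = 0 := congrArg Prod.snd h1
    let t' : V → ℝ := fun v => if h : v ∈ A then t ⟨v, h⟩ else 0
    have ht' : ∀ v : A, t' v = t v := by
      intro v
      simp only [t', dif_pos v.2]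
    have h4 : ∑ v ∈ A, t' v = 0 := by
      rw [← Finset.sum_coe_sort, ← h3]
      exact Finset.sum_congr rfl fun v _ => ht' v
    have h5 : ∑ v ∈ A, t' v • x v = 0 := by
      rw [← Finset.sum_coe_sort A (fun v => t' v • x v), ← h2]
      exact Finset.sum_congr rfl fun v _ => by rw [ht' v]
    funext v
    rw [← ht' v, Pi.zero_apply]
    exact weights_zero C hA t' h4 h5 v v.2
  have hne : Λ ≠ 0 := by
    intro h
    obtain ⟨w, hw, hwA⟩ := exists_out C hA
    have h1 := hΛ (x w) 1
    rw [h, LinearMap.zero_apply] at h1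
    have h2 := lam_off C hA hw hwA
    linarith
  have hrank : Module.finrank ℝ (A → ℝ) = Module.finrank ℝ (LinearMap.ker Λ) := by
    have h1 := Module.Dual.finrank_ker_add_one_of_ne_zero (f := Λ) hne
    rw [Module.finrank_prod, Module.finrank_fin_fun, Module.finrank_self] at h1
    rw [Module.finrank_fintype_fun_eq_card, Fintype.card_coe, C.card A hA]
    omega
  have hsurj : Function.Surjective Ψ :=
    (LinearMap.injective_iff_surjective_of_finrank_eq_finrank hrank).1 hinj
  have hmem : ((z, s) : (Fin d → ℝ) × ℝ) ∈ LinearMap.ker Λ := by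
    rw [LinearMap.mem_ker, hΛ, hz]; ring
  obtain ⟨t, ht⟩ := hsurj ⟨(z, s), hmem⟩
  have h1 : Φ t = (z, s) := congrArg Subtype.val ht
  have h2 : ∑ v, t v • x v = z := congrArg Prod.fst h1
  have h3 : ∑ v, t v = s := congrArg Prod.snd h1
  refine ⟨fun v => if h : v ∈ A then t ⟨v, h⟩ else 0, ?_, ?_⟩
  · rw [← Finset.sum_coe_sort, ← h3]
    exact Finset.sum_congr rfl fun v _ => by simp only [dif_pos v.2]
  · rw [← Finset.sum_coe_sort A (fun v => (if h : v ∈ A then t ⟨v, h⟩ else 0) • x v), ← h2]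
    exact Finset.sum_congr rfl fun v _ => by simp only [dif_pos v.2]

/-- A point satisfying all the facet inequalities, one of them with equality, is a convex
combination of the vertices of that facet. -/
lemma convex_coords (C : Cert d W L x a b) {A : Finset V} (hA : A ∈ L) (z : Fin d → ℝ)
    (hz : lam a A z = b A) (hle : ∀ G ∈ L, lam a G z ≤ b G) :
    ∃ t : V → ℝ, (∀ v ∈ A, 0 ≤ t v) ∧ ∑ v ∈ A, t v = 1 ∧ ∑ v ∈ A, t v • x v = z := by
  obtain ⟨t, h1, h2⟩ := coords C hA z 1 (by rw [hz, one_mul])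
  refine ⟨t, ?_, h1, h2⟩
  intro j hj
  obtain ⟨G, hG, hGA, hjG⟩ := C.ridge A hA j hj
  have e1 : ∑ v ∈ A, t v * (lam a G (x v) - b G) = lam a G z - b G := by
    have : ∑ v ∈ A, t v * (lam a G (x v) - b G) =
        lam a G (∑ v ∈ A, t v • x v) - b G * ∑ v ∈ A, t v := by
      rw [map_sum, Finset.mul_sum, ← Finset.sum_sub_distrib]
      refine Finset.sum_congr rfl fun v _ => ?_
      rw [map_smul, smul_eq_mul]; ring
    rw [this, h1, h2]; ring
  rw [← Finset.add_sum_erase A _ hj] at e1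
  have e2 : ∑ v ∈ A.erase j, t v * (lam a G (x v) - b G) = 0 := by
    refine Finset.sum_eq_zero fun v hv => ?_
    rw [lam_on C hG (hGA hv)]; ring
  rw [e2, add_zero] at e1
  have h3 := lam_off C hG (C.sub A hA hj) hjG
  have h4 := hle G hG
  by_contra hneg
  push Not at hneg
  have : 0 < t j * (lam a G (x j) - b G) := mul_pos_of_neg_of_neg hneg (by linarith)
  linarith

/-- An exposed set of vertices is contained in a facet of the list. -/
lemma exposed_sub (C : Cert d W L x a b) {F : Finset V} (hF : F ⊆ W) (hne : F ≠ W)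
    (ℓ : (Fin d → ℝ) →ₗ[ℝ] ℝ) (c : ℝ) (h1 : ∀ v ∈ F, ℓ (x v) = c)
    (h2 : ∀ v ∈ W, v ∉ F → ℓ (x v) < c) : ∃ A ∈ L, F ⊆ A := by
  classical
  by_contra hcon
  push Not at hcon
  have hF0 : F.Nonempty := by
    rw [Finset.nonempty_iff_ne_empty]
    rintro rfl
    obtain ⟨A, hA⟩ := C.ne
    exact hcon A hA (Finset.empty_subset _)
  obtain ⟨v0, hv0⟩ := hF0
  obtain ⟨w0, hw0, hw0F⟩ : ∃ w ∈ W, w ∉ F := by
    by_contra h
    push Not at h
    exact hne (Finset.Subset.antisymm hF h)
  have hcard : (0 : ℝ) < F.card := by exact_mod_cast Finset.card_pos.2 ⟨v0, hv0⟩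
  obtain ⟨y, hy⟩ : ∃ y : Fin d → ℝ, y = (F.card : ℝ)⁻¹ • ∑ v ∈ F, x v := ⟨_, rfl⟩
  have hℓy : ℓ y = c := by
    rw [hy, map_smul, map_sum, Finset.sum_congr rfl h1, Finset.sum_const, smul_eq_mul,
      nsmul_eq_mul, ← mul_assoc, inv_mul_cancel₀ hcard.ne', one_mul]
  have hlt : ∀ A ∈ L, lam a A y < b A := by
    intro A hA
    obtain ⟨v, hv, hvA⟩ := Finset.not_subset.1 (hcon A hA)
    have e1 : ∑ v ∈ F, lam a A (x v) < ∑ v ∈ F, b A :=
      Finset.sum_lt_sum (fun v hv => lam_le C hA (hF hv)) ⟨v, hv, lam_off C hA (hF hv) hvA⟩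
    rw [Finset.sum_const, nsmul_eq_mul] at e1
    rw [hy, map_smul, map_sum, smul_eq_mul, inv_mul_lt_iff₀ hcard]
    exact e1
  obtain ⟨u, hu⟩ : ∃ u : Fin d → ℝ, u = x v0 - x w0 := ⟨_, rfl⟩
  have hℓu : 0 < ℓ u := by
    rw [hu, map_sub, h1 v0 hv0]
    linarith [h2 w0 hw0 hw0F]
  -- the facets that are met in the direction `u`
  set M := L.filter (fun A => 0 < lam a A u) with hM
  have hMne : M.Nonempty := by
    obtain ⟨A0, hA0, hvA0⟩ := C.cov v0 (hF hv0)
    obtain ⟨A, hA, hvA, hwA⟩ := C.sep A0 hA0 {v0} (Finset.singleton_subset_iff.2 hvA0) w0 hw0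
      (by rw [Finset.mem_singleton]; rintro rfl; exact hw0F hv0)
    refine ⟨A, Finset.mem_filter.2 ⟨hA, ?_⟩⟩
    rw [hu, map_sub, lam_on C hA (hvA (Finset.mem_singleton_self _))]
    linarith [lam_off C hA hw0 hwA]
  obtain ⟨A, hAM, hAmin⟩ := Finset.exists_min_image M (fun A => (b A - lam a A y) / lam a A u) hMne
  have hA := (Finset.mem_filter.1 hAM).1
  have hAu := (Finset.mem_filter.1 hAM).2
  set t := (b A - lam a A y) / lam a A u with ht
  have htpos : 0 < t := div_pos (by linarith [hlt A hA]) hAu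
  have hz1 : lam a A (y + t • u) = b A := by
    rw [map_add, map_smul, smul_eq_mul, ht, div_mul_cancel₀ _ hAu.ne']; ring
  have hz2 : ∀ G ∈ L, lam a G (y + t • u) ≤ b G := by
    intro G hG
    rw [map_add, map_smul, smul_eq_mul]
    by_cases hGu : 0 < lam a G u
    · have h3 := hAmin G (Finset.mem_filter.2 ⟨hG, hGu⟩)
      have h4 : t * lam a G u ≤ (b G - lam a G y) / lam a G u * lam a G u :=
        mul_le_mul_of_nonneg_right h3 hGu.le
      rw [div_mul_cancel₀ _ hGu.ne'] at h4
      linarith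
    · have h3 : t * lam a G u ≤ 0 :=
        mul_nonpos_of_nonneg_of_nonpos htpos.le (not_lt.1 hGu)
      linarith [hlt G hG]
  obtain ⟨s, hs0, hs1, hs2⟩ := convex_coords C hA _ hz1 hz2
  have h5 : ℓ (y + t • u) ≤ c := by
    rw [← hs2, map_sum]
    calc ∑ v ∈ A, ℓ (s v • x v) ≤ ∑ v ∈ A, s v * c := by
          refine Finset.sum_le_sum fun v hv => ?_
          rw [map_smul, smul_eq_mul]
          refine mul_le_mul_of_nonneg_left ?_ (hs0 v hv)
          by_cases hvF : v ∈ F
          · exact (h1 v hvF).le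
          · exact (h2 v (C.sub A hA hv) hvF).le
      _ = c := by rw [← Finset.sum_mul, hs1, one_mul]
  rw [map_add, map_smul, smul_eq_mul, hℓy] at h5
  have : 0 < t * ℓ u := mul_pos htpos hℓu
  linarith

/-- The certificate shows that the complex generated by `L` is the boundary complex of a
simplicial polytope. -/
theorem polytope_of_cert (C : Cert d W L x a b) : IsPolytopeBoundary d (gen L) := by
  classical
  refine ⟨W, x, ?_, ?_, ?_, ?_⟩
  · -- affine span
    obtain ⟨A, hA⟩ := C.ne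
    obtain ⟨w, hw, hwA⟩ := exists_out C hA
    rw [eq_top_iff]
    intro p _
    have hneg := lam_off C hA hw hwA
    set r := (lam a A p - b A) / (lam a A (x w) - b A) with hr
    have hne : lam a A (x w) - b A ≠ 0 := by linarith
    obtain ⟨t, h1, h2⟩ := coords C hA (p - r • x w) (1 - r) (by
      rw [map_sub, map_smul, smul_eq_mul]
      have : r * (lam a A (x w) - b A) = lam a A p - b A := by
        rw [hr, div_mul_cancel₀ _ hne]
      linarith)
    have hp : p = (∑ v ∈ A, t v • (x v - x w)) +ᵥ x w := by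
      rw [vadd_eq_add]
      simp only [smul_sub]
      rw [Finset.sum_sub_distrib, ← Finset.sum_smul, h1, h2, sub_smul, one_smul]
      abel
    rw [hp]
    apply AffineSubspace.vadd_mem_of_mem_direction
    · rw [direction_affineSpan]
      refine Submodule.sum_mem _ fun v hv => Submodule.smul_mem _ _ ?_
      exact vsub_mem_vectorSpan ℝ ⟨v, C.sub A hA hv, rfl⟩ ⟨w, hw, rfl⟩
    · exact subset_affineSpan ℝ _ ⟨w, hw, rfl⟩
  · intro v hv
    obtain ⟨A, hA, hvA⟩ := C.cov v hv
    exact mem_gen.2 ⟨A, hA, Finset.singleton_subset_iff.2 hvA⟩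
  · intro F hF
    obtain ⟨A, hA, hFA⟩ := mem_gen.1 hF
    rw [affineIndependent_iff]
    intro s w h1 h2 e he
    let t : V → ℝ := fun v => if h : v ∈ F then (if (⟨v, h⟩ : F) ∈ s then w ⟨v, h⟩ else 0) else 0
    have ht : ∀ v : F, t v = if v ∈ s then w v else 0 := by
      intro v
      simp only [t, dif_pos v.2]
    have ht0 : ∀ v ∈ A, v ∉ F → t v = 0 := by
      intro v _ hv
      simp only [t, dif_neg hv]
    have e1 : ∑ v ∈ A, t v = 0 := by
      rw [← Finset.sum_subset hFA (fun v hv hv' => ht0 v hv hv'), ← Finset.sum_coe_sort,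
        Finset.sum_congr rfl (fun v _ => ht v), Finset.sum_ite_mem, Finset.univ_inter]
      exact h1
    have e2 : ∑ v ∈ A, t v • x v = 0 := by
      rw [← Finset.sum_subset hFA (fun v hv hv' => by rw [ht0 v hv hv', zero_smul]),
        ← Finset.sum_coe_sort F (fun v => t v • x v)]
      have : ∀ v : F, t v • x v = if v ∈ s then w v • x v else 0 := by
        intro v
        rw [ht v]
        split_ifs
        · rfl
        · rw [zero_smul]
      rw [Finset.sum_congr rfl (fun v _ => this v), Finset.sum_ite_mem, Finset.univ_inter]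
      exact h2
    have e3 := weights_zero C hA t e1 e2 e (hFA e.2)
    rw [ht e, if_pos he] at e3
    exact e3
  · intro F
    constructor
    · intro hF
      obtain ⟨A, hA, hFA⟩ := mem_gen.1 hF
      refine ⟨hFA.trans (C.sub A hA), ?_, ?_⟩
      · rintro rfl
        obtain ⟨w, hw, hwA⟩ := exists_out C hA
        exact hwA (hFA hw)
      · refine ⟨∑ G ∈ L.filter (fun G => F ⊆ G), lam a G, ∑ G ∈ L.filter (fun G => F ⊆ G), b G,
          ?_, ?_⟩
        · intro v hv
          rw [LinearMap.sum_apply]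
          refine Finset.sum_congr rfl fun G hG => ?_
          rw [Finset.mem_filter] at hG
          exact lam_on C hG.1 (hG.2 hv)
        · intro v hv hvF
          rw [LinearMap.sum_apply]
          refine Finset.sum_lt_sum (fun G hG => lam_le C (Finset.mem_filter.1 hG).1 hv) ?_
          obtain ⟨G, hG, hFG, hvG⟩ := C.sep A hA F hFA v hv hvF
          exact ⟨G, Finset.mem_filter.2 ⟨hG, hFG⟩, lam_off C hG hv hvG⟩
    · rintro ⟨hF, hne, ℓ, c, h1, h2⟩
      obtain ⟨A, hA, hFA⟩ := exposed_sub C hF hne ℓ c h1 h2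
      exact mem_gen.2 ⟨A, hA, hFA⟩

end Pool.Agent.X161.CE
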